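import Pool.Agent.V11178.Net.Class

/-!
# From the decidable conditions to the failure of the all-net property
-/

namespace Pool.Agent.V11178.Net

open RealInnerProductSpace

variable {C : List (Fin 4 → Q5)} {ν κ : Q5} {a0 : Fin 4 → Q5}

lemma getD_mem_cons (P : List (Fin 4 → Q5)) (d : Fin 4 → Q5) (i : ℕ) : P.getD i d ∈ d :: P := by
  by_cases h : i < P.length
  · rw [List.getD_eq_getElem _ _ h]
    exact List.mem_cons_of_mem _ (List.getElem_mem h)
  · rw [List.getD_eq_default _ _ (not_lt.1 h)]
    exact List.mem_cons_self

theorem not_allNet_of_check (h : Check C ν κ a0) {i1 i2 : Q5} {k : ℕ} {d : Fin 4 → Q5}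
    {P S : List (Fin 4 → Q5)} (hp : PathCheck C ν κ i1 i2 k d P S) :
    ¬ AllNet (circum (codeSet C)) := by
  have hcode := h.code
  have hconn := h.connected
  have hnn := h.2.1
  obtain ⟨hk, ⟨hi1, hi2⟩, hmem, hinj, hadj, hS0, hS, hfin⟩ := hp
  have hm : ∀ i, toE (P.getD i d) ∈ codeSet C := fun i =>
    toE_mem_codeSet hnn (hmem _ (getD_mem_cons P d i))
  have hi1' : 1 / (ν.val + κ.val) = i1.val := by
    have := congrArg Q5.val hi1
    rw [Q5.val_mul, Q5.val_add, val_one] at this
    have hne : ν.val + κ.val ≠ 0 := by
      intro h0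
      rw [h0, zero_mul] at this
      exact zero_ne_one this
    field_simp
    linarith
  have hi2' : 1 / ν.val = i2.val := by
    have := congrArg Q5.val hi2
    rw [Q5.val_mul, val_one] at this
    have hne : ν.val ≠ 0 := by
      intro h0
      rw [h0, zero_mul] at this
      exact zero_ne_one this
    field_simp
    linarith
  have hdisp : ∀ m ≤ k, disp ν.val κ.val (fun i => toE (P.getD i d)) (k - m) m
      = toE (S.getD (k - m) d) := by
    intro m
    induction m with
    | zero =>
      intro _
      ext c
      simp only [Nat.sub_zero, disp, toE_apply, hS0, val_zero]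
      rfl
    | succ m ih =>
      intro hmk
      have ih' := ih (by omega)
      have e : k - (m + 1) + 1 = k - m := by omega
      have hSj := hS (k - (m + 1)) (by omega)
      rw [disp]
      simp only [e] at hSj ⊢
      rw [ih']
      ext c
      have h1 := congrArg Q5.val (hSj c)
      rw [toE_apply, h1]
      simp only [Q5.val_add, Q5.val_sub, Q5.val_mul, val_two, ← hi1', ← hi2', ← inner_toE]
      simp only [dvec, tauMap, PiLp.add_apply, PiLp.sub_apply, PiLp.smul_apply, smul_eq_mul,
        toE_apply]
      have e2 : toE (fun c => P.getD (k - (m + 1)) d c + P.getD (k - m) d c)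
          = toE (P.getD (k - (m + 1)) d) + toE (P.getD (k - m) d) := by
        ext c
        simp only [toE_apply, PiLp.add_apply, Q5.val_add]
      rw [e2]
      ring
  refine not_allNet hcode hconn k (fun i => ⟨toE (P.getD i d), hm i⟩) ?_ ?_ hk ?_
  · intro i hi j hj hij
    rcases hinj i (by omega) j (by omega) with h1 | h1
    · exact h1
    · exfalso
      have h2 := h1.val_pos
      have h3 : toE (P.getD i d) = toE (P.getD j d) := congrArg Subtype.val hij
      rw [Q5.val_sub, ← inner_toE, h3, hcode.norm _ (hm j)] at h2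
      linarith
  · intro i hi
    have h1 : ⟪toE (P.getD i d), toE (P.getD (i + 1) d)⟫ = κ.val := by
      rw [inner_toE, hadj i hi]
    refine ⟨?_, h1⟩
    intro hc
    have h3 : toE (P.getD i d) = toE (P.getD (i + 1) d) := congrArg Subtype.val hc
    rw [h3, hcode.norm _ (hm _)] at h1
    exact absurd h1 (ne_of_gt hcode.klt)
  · have h1 := hdisp k le_rfl
    rw [Nat.sub_self] at h1
    simp only
    rw [h1, inner_toE]
    have h2 := hfin.val_pos
    rw [Q5.val_sub, Q5.val_mul, Q5.val_mul, Q5.val_mul, Q5.val_sub, Q5.val_add, val_four] at h2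
    linarith

end Pool.Agent.V11178.Net
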