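import Mathlib

/-!
# Ridge unfoldings of convex polytopes: definitions

Definitions for MP_6fbbc1_co.
-/

namespace Pool.Agent.V11178.Net

open Module RealInnerProductSpace

/-- Euclidean `n`-space. -/
abbrev E (n : ℕ) := EuclideanSpace ℝ (Fin n)

/-- `F` is a (nonempty, exposed) face of dimension `k` of the convex set `P`: the set of points of
`P` at which some linear functional attains an upper bound `c` for its values on `P`, and the affine
span of `F` has dimension `k`.  (Every face of a polytope is exposed.) -/
def IsFaceOfDim {n : ℕ} (P : Set (E n)) (k : ℕ) (F : Set (E n)) : Prop :=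
  (∃ (u : E n) (c : ℝ), (∀ x ∈ P, ⟪u, x⟫ ≤ c) ∧ F = {x ∈ P | ⟪u, x⟫ = c}) ∧
    F.Nonempty ∧ finrank ℝ (vectorSpan ℝ F) = k

/-- The facets of a full-dimensional polytope `P` in `(d+2)`-space: its faces of dimension `d+1`. -/
abbrev Facet {d : ℕ} (P : Set (E (d + 2))) := {F : Set (E (d + 2)) // IsFaceOfDim P (d + 1) F}

/-- The dual graph: two facets are adjacent when they share a ridge (a face of dimension `d`). -/
def dualGraph {d : ℕ} (P : Set (E (d + 2))) : SimpleGraph (Facet P) where
  Adj F G := F ≠ G ∧ IsFaceOfDim P d (F.1 ∩ G.1)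
  symm := ⟨fun F G h => ⟨h.1.symm, by rw [Set.inter_comm]; exact h.2⟩⟩
  loopless := ⟨fun F h => h.1 rfl⟩

/-- `φ` is a development of the facets of `P` into `(d+1)`-space along the spanning tree `T` of the
dual graph (a ridge unfolding): every facet is placed isometrically, and two facets joined by an
edge of `T` are placed so that they agree on their common ridge and lie on different sides of a
hyperplane (that is, one is laid down by rotating it about the ridge). -/
structure IsRidgeUnfolding {d : ℕ} (P : Set (E (d + 2))) (T : SimpleGraph (Facet P))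
    (φ : Facet P → E (d + 2) → E (d + 1)) : Prop where
  le_dual : T ≤ dualGraph P
  tree : T.IsTree
  isometric : ∀ F : Facet P, ∀ x ∈ F.1, ∀ y ∈ F.1, dist (φ F x) (φ F y) = dist x y
  hinge : ∀ F G : Facet P, T.Adj F G → ∀ x ∈ F.1 ∩ G.1, φ F x = φ G x
  opposite : ∀ F G : Facet P, T.Adj F G → ∃ (w : E (d + 1)) (c : ℝ), w ≠ 0 ∧
    (∀ x ∈ F.1, ⟪w, φ F x⟫ ≤ c) ∧ (∀ x ∈ G.1, c ≤ ⟪w, φ G x⟫)

/-- `P` is all-net: in every ridge unfolding the relative interiors of the images of any two
distinct facets are disjoint. -/
def AllNet {d : ℕ} (P : Set (E (d + 2))) : Prop :=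
  ∀ (T : SimpleGraph (Facet P)) (φ : Facet P → E (d + 2) → E (d + 1)), IsRidgeUnfolding P T φ →
    ∀ F G : Facet P, F ≠ G →
      Disjoint (intrinsicInterior ℝ (φ F '' F.1)) (intrinsicInterior ℝ (φ G '' G.1))

/-- The polytope circumscribed about a sphere with the points of `N` as points of tangency (a
multiple of the polar dual of the convex hull of `N`, when all points of `N` have the same norm). -/
def circum {n : ℕ} (N : Set (E n)) : Set (E n) := {x | ∀ p ∈ N, ⟪p, x⟫ ≤ ⟪p, p⟫}

/-- All points obtained from the vector `a` (with nonnegative entries) by permuting coordinates and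
changing signs. -/
def signedPerms {n : ℕ} (a : Fin n → ℝ) : Set (E n) :=
  {x | ∃ σ : Equiv.Perm (Fin n), ∀ i, |x i| = a (σ i)}

/-- All points obtained from the vector `a` (with nonnegative entries) by an even permutation of the
coordinates and changing signs. -/
def evenSignedPerms {n : ℕ} (a : Fin n → ℝ) : Set (E n) :=
  {x | ∃ σ : Equiv.Perm (Fin n), Equiv.Perm.sign σ = 1 ∧ ∀ i, |x i| = a (σ i)}

end Pool.Agent.V11178.Net
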