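import Pool.Agent.V11178.Net.Quad

/-!
# Codes given by coordinate patterns: the code axioms and connectivity
-/

namespace Pool.Agent.V11178.Net

open RealInnerProductSpace

variable {C : List (Fin 4 → Q5)} {ν κ : Q5} {a0 : Fin 4 → Q5}

lemma mem_codeSet {x : E 4} : x ∈ codeSet C ↔ ∃ a ∈ C, ∃ σ : Equiv.Perm (Fin 4),
    Equiv.Perm.sign σ = 1 ∧ ∀ i, |x i| = (a (σ i)).val := Iff.rfl

lemma val_zero : (⟨0, 0⟩ : Q5).val = 0 := by simp [Q5.val]

lemma val_two : (⟨2, 0⟩ : Q5).val = 2 := by simp [Q5.val]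

lemma val_one : (⟨1, 0⟩ : Q5).val = 1 := by simp [Q5.val]

lemma val_four : (⟨4, 0⟩ : Q5).val = 4 := by simp [Q5.val]

lemma inner_eq_sum (x y : E 4) : ⟪x, y⟫ = ∑ i, x i * y i := by
  rw [inner_four, Fin.sum_univ_four]

lemma dotQ_val (u v : Fin 4 → Q5) : (dotQ u v).val = ∑ i, (u i).val * (v i).val := by
  rw [Fin.sum_univ_four]
  simp only [dotQ, Q5.val_add, Q5.val_mul]

lemma codeSet_finite (C : List (Fin 4 → Q5)) : (codeSet C).Finite := by
  have h1 : ∀ c : Fin 4 → ℝ, {x : E 4 | ∀ i, |x i| = c i}.Finite := by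
    intro c
    have h2 : {f : Fin 4 → ℝ | ∀ i, f i ∈ ({c i, -c i} : Set ℝ)}.Finite :=
      Set.Finite.pi' (fun i => Set.toFinite _)
    refine Set.Finite.subset (h2.preimage (f := fun x : E 4 => (fun i => x i)) ?_) ?_
    · intro x _ y _ hxy
      ext i
      exact congrFun hxy i
    · intro x hx
      simp only [Set.mem_preimage, Set.mem_ofPred_eq] at hx ⊢
      intro i
      have := hx i
      rcases abs_choice (x i) with h | h
      · left; rw [← this, h]
      · right
        simp only [Set.mem_singleton_iff]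
        rw [← this, h]; ring
  have h3 : (⋃ a ∈ {a | a ∈ C}, ⋃ σ : Equiv.Perm (Fin 4),
      {x : E 4 | ∀ i, |x i| = (a (σ i)).val}).Finite := by
    refine Set.Finite.biUnion (List.finite_toSet C) ?_
    intro a _
    exact Set.finite_iUnion fun σ => h1 _
  refine h3.subset ?_
  intro x hx
  obtain ⟨a, ha, σ, _, hσ⟩ := mem_codeSet.1 hx
  simp only [Set.mem_iUnion]
  exact ⟨a, ha, σ, hσ⟩

lemma abs_toE_eq {a : Fin 4 → Q5} (hn : ∀ i, (a i).Nonneg) (f : Fin 4 → Fin 4) (v : Fin 4 → Q5)
    (h : ∀ c, v c = a (f c) ∨ v c = -(a (f c))) (c : Fin 4) : |toE v c| = (a (f c)).val := by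
  have h0 := (hn (f c)).val_nonneg
  rcases h c with h | h
  · rw [toE_apply, h, abs_of_nonneg h0]
  · rw [toE_apply, h, Q5.val_neg, abs_neg, abs_of_nonneg h0]

lemma toE_mem_codeSet (hn : ∀ a ∈ C, ∀ i, (a i).Nonneg) {v : Fin 4 → Q5}
    (h : ∃ a ∈ C, ∃ f ∈ evenL, ∀ c, v c = a (f c) ∨ v c = -(a (f c))) : toE v ∈ codeSet C := by
  obtain ⟨a, ha, f, hf, hv⟩ := h
  obtain ⟨σ, hσ, rfl⟩ := evenL_spec f hf
  exact mem_codeSet.2 ⟨a, ha, σ, hσ, fun i => abs_toE_eq (hn a ha) _ v hv i⟩

theorem Check.code (h : Check C ν κ a0) : Code (codeSet C) ν.val κ.val := by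
  obtain ⟨hnorm, hnn, hpair, hent, ⟨hν, hκ, hνκ⟩, ha0, -, -⟩ := h
  have hnm : ∀ p ∈ codeSet C, ⟪p, p⟫ = ν.val := by
    intro x hx
    obtain ⟨a, ha, σ, _, hσ⟩ := mem_codeSet.1 hx
    have e1 : ⟪x, x⟫ = ∑ i, (a (σ i)).val * (a (σ i)).val := by
      rw [inner_eq_sum]
      refine Finset.sum_congr rfl fun i _ => ?_
      rw [← hσ i, abs_mul_abs_self]
    rw [e1, Equiv.sum_comp σ (fun j => (a j).val * (a j).val), ← dotQ_val, hnorm a ha]
  refine ⟨codeSet_finite C, ?_, hν.val_pos, hκ.val_nonneg, ?_, hnm, ?_⟩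
  · refine ⟨toE a0, toE_mem_codeSet hnn ⟨a0, ha0, ![0, 1, 2, 3], by decide, ?_⟩⟩
    intro c
    left
    fin_cases c <;> rfl
  · have := hνκ.val_pos
    rw [Q5.val_sub] at this
    linarith
  · intro x hx y hy hxy
    obtain ⟨a, ha, σ, hs, hσ⟩ := mem_codeSet.1 hx
    obtain ⟨a', ha', τ, ht, hτ⟩ := mem_codeSet.1 hy
    have hf : (⇑(τ⁻¹.trans σ) : Fin 4 → Fin 4) ∈ evenL := by
      apply mem_evenL
      have : τ⁻¹.trans σ = σ * τ⁻¹ := rfl
      rw [this, map_mul, hs, Equiv.Perm.sign_inv, ht, one_mul]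
    rcases hpair a ha a' ha' _ hf with h | h
    · -- same absolute values
      have habs : ∀ i, |x i| = |y i| := by
        intro i
        rw [hσ i, hτ i, ← h (τ i)]
        simp
      obtain ⟨i, hi⟩ : ∃ i, x i ≠ y i := by
        by_contra hc
        push Not at hc
        exact hxy (by ext i; exact hc i)
      have hyi : y i = -x i := by
        rcases abs_eq_abs.1 (habs i) with h | h
        · exact absurd h hi
        · rw [h]; ring
      have hxi : x i ≠ 0 := by
        intro h0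
        rw [hyi, h0] at hi
        simp at hi
      have hle : ∀ j, x j * y j ≤ x j * x j := by
        intro j
        calc x j * y j ≤ |x j * y j| := le_abs_self _
          _ = x j * x j := by rw [abs_mul, ← habs j, abs_mul_abs_self]
      have hsum : ⟪x, y⟫ ≤ ⟪x, x⟫ - 2 * (x i * x i) := by
        rw [inner_eq_sum, inner_eq_sum,
          ← Finset.add_sum_erase _ (fun j => x j * y j) (Finset.mem_univ i),
          ← Finset.add_sum_erase _ (fun j => x j * x j) (Finset.mem_univ i)]
        have := Finset.sum_le_sum (s := Finset.univ.erase i) (fun j _ => hle j)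
        have e : x i * y i = -(x i * x i) := by rw [hyi]; ring
        linarith
      have hai : a (σ i) ≠ ⟨0, 0⟩ := by
        intro h0
        have := hσ i
        rw [h0, val_zero, abs_eq_zero] at this
        exact hxi this
      have h2 := (hent a ha (σ i)).resolve_left hai
      have h3 := h2.val_nonneg
      rw [Q5.val_sub, Q5.val_mul, Q5.val_mul, Q5.val_sub, val_two, ← hσ i, abs_mul_abs_self] at h3
      rw [hnm x hx] at hsum
      linarith
    · have h1 : ⟪x, y⟫ ≤ ∑ i, (a (σ i)).val * (a' (τ i)).val := by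
        rw [inner_eq_sum]
        refine Finset.sum_le_sum fun i _ => ?_
        rw [← hσ i, ← hτ i, ← abs_mul]
        exact le_abs_self _
      have h2 : ∑ i, (a (σ i)).val * (a' (τ i)).val
          = ∑ j, (a ((τ⁻¹.trans σ) j)).val * (a' j).val := by
        rw [← Equiv.sum_comp τ (fun j => (a ((τ⁻¹.trans σ) j)).val * (a' j).val)]
        refine Finset.sum_congr rfl fun i _ => ?_
        simp
      have h3 := h.val_nonneg
      rw [Q5.val_sub, dotQ_val] at h3
      linarith

/-! ### Connectivity -/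

/-- adjacency on `E 4` -/
def Rel (N : Set (E 4)) (κ : ℝ) (x y : E 4) : Prop := x ∈ N ∧ y ∈ N ∧ ⟪x, y⟫ = κ

lemma Rel.symm {N : Set (E 4)} {κ : ℝ} {x y : E 4} (h : Rel N κ x y) : Rel N κ y x :=
  ⟨h.2.1, h.1, by rw [real_inner_comm]; exact h.2.2⟩

lemma reach_symm {N : Set (E 4)} {κ : ℝ} {x y : E 4} (h : Relation.ReflTransGen (Rel N κ) x y) :
    Relation.ReflTransGen (Rel N κ) y x := by
  induction h with
  | refl => exact Relation.ReflTransGen.refl
  | tail _ h2 ih => exact Relation.ReflTransGen.head h2.symm ih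

/-- flip the sign of the `i`-th coordinate -/
noncomputable def flip (i : Fin 4) (x : E 4) : E 4 :=
  WithLp.toLp 2 (fun j => if j = i then -x j else x j)

lemma flip_apply (i : Fin 4) (x : E 4) (j : Fin 4) :
    flip i x j = if j = i then -x j else x j := rfl

lemma flip_flip (i : Fin 4) (x : E 4) : flip i (flip i x) = x := by
  ext j
  rw [flip_apply, flip_apply]
  split_ifs <;> simp

lemma abs_flip (i : Fin 4) (x : E 4) (j : Fin 4) : |flip i x j| = |x j| := by
  rw [flip_apply]
  split_ifs <;> simp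

lemma inner_flip (i : Fin 4) (x y : E 4) : ⟪flip i x, flip i y⟫ = ⟪x, y⟫ := by
  rw [inner_eq_sum, inner_eq_sum]
  refine Finset.sum_congr rfl fun j _ => ?_
  rw [flip_apply, flip_apply]
  split_ifs <;> ring

lemma flip_mem {i : Fin 4} {x : E 4} (hx : x ∈ codeSet C) : flip i x ∈ codeSet C := by
  obtain ⟨a, ha, σ, hs, hσ⟩ := mem_codeSet.1 hx
  exact mem_codeSet.2 ⟨a, ha, σ, hs, fun j => by rw [abs_flip]; exact hσ j⟩

lemma reach_flip {κ : ℝ} {i : Fin 4} {x y : E 4}
    (h : Relation.ReflTransGen (Rel (codeSet C) κ) x y) :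
    Relation.ReflTransGen (Rel (codeSet C) κ) (flip i x) (flip i y) := by
  refine Relation.ReflTransGen.lift (flip i) ?_ _ _ h
  rintro u v ⟨h1, h2, h3⟩
  exact ⟨flip_mem h1, flip_mem h2, by rw [inner_flip]; exact h3⟩

/-- nonnegative points are given by patterns -/
lemma exists_pattern {x : E 4} (hx : x ∈ codeSet C) (h0 : ∀ i, 0 ≤ x i) :
    ∃ a ∈ C, ∃ f ∈ evenL, x = toE (fun i => a (f i)) := by
  obtain ⟨a, ha, σ, hs, hσ⟩ := mem_codeSet.1 hx
  refine ⟨a, ha, σ, mem_evenL σ hs, ?_⟩
  ext i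
  rw [toE_apply, ← hσ i, abs_of_nonneg (h0 i)]

lemma pattern_mem (hn : ∀ a ∈ C, ∀ i, (a i).Nonneg) {a : Fin 4 → Q5} (ha : a ∈ C)
    {f : Fin 4 → Fin 4} (hf : f ∈ evenL) : toE (fun i => a (f i)) ∈ codeSet C :=
  toE_mem_codeSet hn ⟨a, ha, f, hf, fun _ => Or.inl rfl⟩

lemma Check.reach_nonneg (h : Check C ν κ a0) {x : E 4} (hx : x ∈ codeSet C)
    (h0 : ∀ i, 0 ≤ x i) : Relation.ReflTransGen (Rel (codeSet C) κ.val) (toE a0) x := by
  obtain ⟨hnorm, hnn, hpair, hent, ⟨hν, hκ, hνκ⟩, ha0, hgreedy, hz⟩ := h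
  by_contra hcon
  let Bad : Set (E 4) := {x | x ∈ codeSet C ∧ (∀ i, 0 ≤ x i) ∧
    ¬ Relation.ReflTransGen (Rel (codeSet C) κ.val) (toE a0) x}
  have hfin : Bad.Finite := (codeSet_finite C).subset fun x hx => hx.1
  obtain ⟨y, hyB, hmax⟩ := Set.exists_max_image Bad (fun x => ⟪x, toE a0⟫) hfin ⟨x, hx, h0, hcon⟩
  obtain ⟨hy1, hy2, hy3⟩ := hyB
  obtain ⟨a, ha, f, hf, rfl⟩ := exists_pattern hy1 hy2
  rcases hgreedy a ha f hf with h | ⟨a', ha', g, hg, h1, h2⟩
  · apply hy3
    have : (fun i => a (f i)) = a0 := funext h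
    rw [this]
  · have hz1 : toE (fun i => a' (g i)) ∈ codeSet C := pattern_mem hnn ha' hg
    have hz2 : ∀ i, 0 ≤ toE (fun i => a' (g i)) i := fun i => (hnn a' ha' (g i)).val_nonneg
    have h3 := h2.val_pos
    rw [Q5.val_sub, ← inner_toE, ← inner_toE] at h3
    have hz3 : Relation.ReflTransGen (Rel (codeSet C) κ.val) (toE a0)
        (toE (fun i => a' (g i))) := by
      by_contra hc
      have := hmax _ ⟨hz1, hz2, hc⟩
      linarith
    apply hy3
    refine hz3.tail ⟨hz1, hy1, ?_⟩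
    rw [real_inner_comm, inner_toE, h1]

lemma Check.reach (h : Check C ν κ a0) {x : E 4} (hx : x ∈ codeSet C) :
    Relation.ReflTransGen (Rel (codeSet C) κ.val) (toE a0) x := by
  have key : ∀ i : Fin 4, ∀ x ∈ codeSet C,
      Relation.ReflTransGen (Rel (codeSet C) κ.val) (toE a0) x →
      Relation.ReflTransGen (Rel (codeSet C) κ.val) (toE a0) (flip i x) := by
    intro i x hx hr
    have hh := h
    obtain ⟨hnorm, hnn, hpair, hent, ⟨hν, hκ, hνκ⟩, ha0, hgreedy, hz⟩ := hh
    obtain ⟨a, ha, f, hf, h0⟩ := hz i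
    have hzm : toE (fun i => a (f i)) ∈ codeSet C := pattern_mem hnn ha hf
    have hz1 := h.reach_nonneg hzm (fun i => (hnn a ha (f i)).val_nonneg)
    have hfz : flip i (toE (fun i => a (f i))) = toE (fun i => a (f i)) := by
      ext j
      rw [flip_apply]
      split_ifs with hj
      · subst hj
        rw [toE_apply, h0, val_zero, neg_zero]
      · rfl
    have h2 := reach_flip (i := i) hz1
    rw [hfz] at h2
    exact (hz1.trans (reach_symm h2)).trans (reach_flip hr)
  have main : ∀ s : Finset (Fin 4), ∀ x ∈ codeSet C, (∀ i, x i < 0 → i ∈ s) →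
      Relation.ReflTransGen (Rel (codeSet C) κ.val) (toE a0) x := by
    intro s
    induction s using Finset.induction_on with
    | empty =>
      intro x hx h1
      refine h.reach_nonneg hx fun i => ?_
      by_contra hc
      exact absurd (h1 i (not_le.1 hc)) (by simp)
    | insert i s hi ih =>
      intro x hx h1
      by_cases hxi : x i < 0
      · have h2 := ih (flip i x) (flip_mem hx) (by
          intro j hj
          rw [flip_apply] at hj
          split_ifs at hj with hji
          · subst hji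
            linarith
          · have := h1 j hj
            rw [Finset.mem_insert] at this
            exact this.resolve_left hji)
        have h3 := key i _ (flip_mem hx) h2
        rwa [flip_flip] at h3
      · refine ih x hx fun j hj => ?_
        have := h1 j hj
        rw [Finset.mem_insert] at this
        refine this.resolve_left ?_
        rintro rfl
        exact hxi hj
  exact main Finset.univ x hx fun i _ => Finset.mem_univ i

theorem Check.connected (h : Check C ν κ a0) : (codeGraph (codeSet C) κ.val).Connected := by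
  have hcode := h.code
  have hh := h
  obtain ⟨hnorm, hnn, hpair, hent, ⟨hν, hκ, hνκ⟩, ha0, hgreedy, hz⟩ := hh
  have hmem0 : toE a0 ∈ codeSet C :=
    toE_mem_codeSet hnn ⟨a0, ha0, ![0, 1, 2, 3], by decide, by
      intro c
      left
      fin_cases c <;> rfl⟩
  have key : ∀ x : E 4, Relation.ReflTransGen (Rel (codeSet C) κ.val) (toE a0) x →
      ∃ hx : x ∈ codeSet C, (codeGraph (codeSet C) κ.val).Reachable ⟨toE a0, hmem0⟩ ⟨x, hx⟩ := by
    intro x hx
    induction hx with
    | refl => exact ⟨hmem0, SimpleGraph.Reachable.refl _⟩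
    | tail _ h2 ih =>
      obtain ⟨h1, h3, h4⟩ := h2
      obtain ⟨hy, hr⟩ := ih
      refine ⟨h3, hr.trans (SimpleGraph.Adj.reachable ?_)⟩
      refine ⟨?_, h4⟩
      intro hc
      have hc' := congrArg Subtype.val hc
      simp only at hc'
      rw [hc', hcode.norm _ h3] at h4
      exact absurd h4 (ne_of_gt hcode.klt)
  have : Nonempty (codeSet C) := ⟨⟨toE a0, hmem0⟩⟩
  refine SimpleGraph.Connected.mk ?_
  intro u v
  obtain ⟨_, hu⟩ := key u (h.reach u.2)
  obtain ⟨_, hv⟩ := key v (h.reach v.2)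
  exact hu.symm.trans hv

end Pool.Agent.V11178.Net
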