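import Pool.Agent.V11178.Net.Quad

/-!
# The three codes and the three paths
-/

namespace Pool.Agent.V11178.Net

/-- patterns of the 24-cell code -/
def C24 : List (Fin 4 → Q5) :=
  [![⟨1, 0⟩, ⟨1, 0⟩, ⟨0, 0⟩, ⟨0, 0⟩]]

def P24 : List (Fin 4 → Q5) :=
  [![⟨1, 0⟩, ⟨1, 0⟩, ⟨0, 0⟩, ⟨0, 0⟩],
   ![⟨1, 0⟩, ⟨0, 0⟩, ⟨1, 0⟩, ⟨0, 0⟩],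
   ![⟨1, 0⟩, ⟨-1, 0⟩, ⟨0, 0⟩, ⟨0, 0⟩],
   ![⟨0, 0⟩, ⟨-1, 0⟩, ⟨-1, 0⟩, ⟨0, 0⟩],
   ![⟨0, 0⟩, ⟨-1, 0⟩, ⟨0, 0⟩, ⟨1, 0⟩],
   ![⟨1, 0⟩, ⟨0, 0⟩, ⟨0, 0⟩, ⟨1, 0⟩],
   ![⟨1, 0⟩, ⟨0, 0⟩, ⟨-1, 0⟩, ⟨0, 0⟩],
   ![⟨1, 0⟩, ⟨0, 0⟩, ⟨0, 0⟩, ⟨-1, 0⟩]]

def S24 : List (Fin 4 → Q5) :=
  [![⟨98/243, 0⟩, ⟨-98/243, 0⟩, ⟨-176/243, 0⟩, ⟨92/81, 0⟩],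
   ![⟨104/81, 0⟩, ⟨28/27, 0⟩, ⟨-104/81, 0⟩, ⟨92/81, 0⟩],
   ![⟨434/243, 0⟩, ⟨434/243, 0⟩, ⟨-8/243, 0⟩, ⟨92/81, 0⟩],
   ![⟨100/27, 0⟩, ⟨-4/81, 0⟩, ⟨4/81, 0⟩, ⟨92/81, 0⟩],
   ![⟨100/27, 0⟩, ⟨2/27, 0⟩, ⟨-8/9, 0⟩, ⟨2/27, 0⟩],
   ![⟨16/9, 0⟩, ⟨0, 0⟩, ⟨-8/9, 0⟩, ⟨-16/9, 0⟩],
   ![⟨2/3, 0⟩, ⟨0, 0⟩, ⟨2/3, 0⟩, ⟨-4/3, 0⟩],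
   ![⟨0, 0⟩, ⟨0, 0⟩, ⟨0, 0⟩, ⟨0, 0⟩]]

lemma check24 : Check C24 ⟨2, 0⟩ ⟨1, 0⟩ ![⟨1, 0⟩, ⟨1, 0⟩, ⟨0, 0⟩, ⟨0, 0⟩] := by decide +kernel

lemma pathCheck24 : PathCheck C24 ⟨2, 0⟩ ⟨1, 0⟩ ⟨1/3, 0⟩ ⟨1/2, 0⟩ 7 ![⟨1, 0⟩, ⟨1, 0⟩, ⟨0, 0⟩, ⟨0, 0⟩] P24 S24 := by decide +kernel

/-- patterns of the 120-cell code -/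
def C120 : List (Fin 4 → Q5) :=
  [![⟨2, 0⟩, ⟨0, 0⟩, ⟨0, 0⟩, ⟨0, 0⟩],
   ![⟨1, 0⟩, ⟨1, 0⟩, ⟨1, 0⟩, ⟨1, 0⟩],
   ![⟨1/2, 1/2⟩, ⟨1, 0⟩, ⟨-1/2, 1/2⟩, ⟨0, 0⟩]]

def P120 : List (Fin 4 → Q5) :=
  [![⟨2, 0⟩, ⟨0, 0⟩, ⟨0, 0⟩, ⟨0, 0⟩],
   ![⟨1/2, 1/2⟩, ⟨1, 0⟩, ⟨-1/2, 1/2⟩, ⟨0, 0⟩],
   ![⟨1, 0⟩, ⟨1, 0⟩, ⟨1, 0⟩, ⟨1, 0⟩],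
   ![⟨1/2, 1/2⟩, ⟨-1/2, 1/2⟩, ⟨0, 0⟩, ⟨1, 0⟩],
   ![⟨1/2, 1/2⟩, ⟨1, 0⟩, ⟨1/2, -1/2⟩, ⟨0, 0⟩],
   ![⟨1/2, 1/2⟩, ⟨-1/2, 1/2⟩, ⟨0, 0⟩, ⟨-1, 0⟩]]

def S120 : List (Fin 4 → Q5) :=
  [![⟨0, 0⟩, ⟨128/25, -248/125⟩, ⟨6/25, -46/125⟩, ⟨126/25, -66/25⟩],
   ![⟨24/25, -4/25⟩, ⟨92/25, -44/25⟩, ⟨38/25, -6/5⟩, ⟨126/25, -66/25⟩],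
   ![⟨-2/5, 28/25⟩, ⟨-14/5, 36/25⟩, ⟨12/5, -38/25⟩, ⟨4/5, -26/25⟩],
   ![⟨-4/5, 4/5⟩, ⟨-2/5, 2/5⟩, ⟨8/5, -4/5⟩, ⟨-14/5, 2/5⟩],
   ![⟨-1, 3/5⟩, ⟨-2, 4/5⟩, ⟨1, -1/5⟩, ⟨-2, 2/5⟩],
   ![⟨0, 0⟩, ⟨0, 0⟩, ⟨0, 0⟩, ⟨0, 0⟩]]

lemma check120 : Check C120 ⟨4, 0⟩ ⟨1, 1⟩ ![⟨2, 0⟩, ⟨0, 0⟩, ⟨0, 0⟩, ⟨0, 0⟩] := by decide +kernel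

lemma pathCheck120 : PathCheck C120 ⟨4, 0⟩ ⟨1, 1⟩ ⟨1/4, -1/20⟩ ⟨1/4, 0⟩ 5 ![⟨2, 0⟩, ⟨0, 0⟩, ⟨0, 0⟩, ⟨0, 0⟩] P120 S120 := by decide +kernel

/-- patterns of the 600-cell code -/
def C600 : List (Fin 4 → Q5) :=
  [![⟨0, 0⟩, ⟨0, 0⟩, ⟨2, 0⟩, ⟨2, 0⟩],
   ![⟨1, 0⟩, ⟨1, 0⟩, ⟨1, 0⟩, ⟨0, 1⟩],
   ![⟨3/2, -1/2⟩, ⟨1/2, 1/2⟩, ⟨1/2, 1/2⟩, ⟨1/2, 1/2⟩],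
   ![⟨-1/2, 1/2⟩, ⟨-1/2, 1/2⟩, ⟨-1/2, 1/2⟩, ⟨3/2, 1/2⟩],
   ![⟨0, 0⟩, ⟨3/2, -1/2⟩, ⟨1, 0⟩, ⟨3/2, 1/2⟩],
   ![⟨0, 0⟩, ⟨-1/2, 1/2⟩, ⟨1/2, 1/2⟩, ⟨0, 1⟩],
   ![⟨-1/2, 1/2⟩, ⟨1, 0⟩, ⟨1/2, 1/2⟩, ⟨2, 0⟩]]

def P600 : List (Fin 4 → Q5) :=
  [![⟨0, 0⟩, ⟨0, 0⟩, ⟨2, 0⟩, ⟨2, 0⟩],
   ![⟨-1/2, 1/2⟩, ⟨0, 0⟩, ⟨0, 1⟩, ⟨1/2, 1/2⟩],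
   ![⟨1, 0⟩, ⟨-1/2, 1/2⟩, ⟨2, 0⟩, ⟨1/2, 1/2⟩],
   ![⟨1/2, 1/2⟩, ⟨3/2, -1/2⟩, ⟨1/2, 1/2⟩, ⟨1/2, 1/2⟩],
   ![⟨1/2, 1/2⟩, ⟨-3/2, 1/2⟩, ⟨1/2, 1/2⟩, ⟨1/2, 1/2⟩],
   ![⟨1, 0⟩, ⟨1/2, -1/2⟩, ⟨2, 0⟩, ⟨1/2, 1/2⟩],
   ![⟨-1/2, 1/2⟩, ⟨-1, 0⟩, ⟨1/2, 1/2⟩, ⟨2, 0⟩],
   ![⟨0, 0⟩, ⟨1/2, -1/2⟩, ⟨1/2, 1/2⟩, ⟨0, 1⟩],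
   ![⟨0, 0⟩, ⟨-3/2, 1/2⟩, ⟨1, 0⟩, ⟨3/2, 1/2⟩],
   ![⟨0, 0⟩, ⟨3/2, -1/2⟩, ⟨1, 0⟩, ⟨3/2, 1/2⟩],
   ![⟨0, 0⟩, ⟨-1/2, 1/2⟩, ⟨1/2, 1/2⟩, ⟨0, 1⟩]]

def S600 : List (Fin 4 → Q5) :=
  [![⟨61360/59049, -30680/59049⟩, ⟨-73744/19683, 36872/19683⟩, ⟨215024/59049, -107512/59049⟩, ⟨-215024/59049, 107512/59049⟩],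
   ![⟨-176161/19683, 72481/19683⟩, ⟨-73744/19683, 36872/19683⟩, ⟨82564/19683, -41282/19683⟩, ⟨135829/19683, -52315/19683⟩],
   ![⟨-75776/6561, 10240/2187⟩, ⟨-4480/729, 17536/6561⟩, ⟨11776/6561, -5888/6561⟩, ⟨30848/6561, -10880/6561⟩],
   ![⟨-16835/2187, 6005/2187⟩, ⟨115/243, -115/729⟩, ⟨33385/2187, -14575/2187⟩, ⟨-12755/2187, 6845/2187⟩],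
   ![⟨-9128/729, 400/81⟩, ⟨844/243, -844/729⟩, ⟨7612/729, -3260/729⟩, ⟨-7768/729, 3880/729⟩],
   ![⟨-3730/243, 1564/243⟩, ⟨1813/243, -685/243⟩, ⟨152/243, -76/243⟩, ⟨-811/243, 485/243⟩],
   ![⟨-1076/81, 460/81⟩, ⟨680/81, -248/81⟩, ⟨68/81, -20/81⟩, ⟨-496/81, 248/81⟩],
   ![⟨0, 0⟩, ⟨5/3, -5/27⟩, ⟨305/27, -5⟩, ⟨-20/9, 10/9⟩],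
   ![⟨0, 0⟩, ⟨4, -4/3⟩, ⟨32/3, -40/9⟩, ⟨-28/9, 4/3⟩],
   ![⟨0, 0⟩, ⟨1, -1/3⟩, ⟨2/3, 0⟩, ⟨-7, 3⟩],
   ![⟨0, 0⟩, ⟨0, 0⟩, ⟨0, 0⟩, ⟨0, 0⟩]]

lemma check600 : Check C600 ⟨8, 0⟩ ⟨1, 3⟩ ![⟨0, 0⟩, ⟨0, 0⟩, ⟨2, 0⟩, ⟨2, 0⟩] := by decide +kernel

lemma pathCheck600 : PathCheck C600 ⟨8, 0⟩ ⟨1, 3⟩ ⟨1/4, -1/12⟩ ⟨1/8, 0⟩ 10 ![⟨0, 0⟩, ⟨0, 0⟩, ⟨2, 0⟩, ⟨2, 0⟩] P600 S600 := by decide +kernel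

end Pool.Agent.V11178.Net
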