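import Mathlib

/-!
# Spanning trees through a path, and assignments along a tree
-/

namespace Pool.Agent.V11178.Net

open SimpleGraph

variable {V : Type*}

/-- A path in a connected graph extends to a spanning tree. -/
lemma exists_tree_of_path {G : SimpleGraph V} (hG : G.Connected) (k : ℕ) (p : ℕ → V)
    (hinj : ∀ i ≤ k, ∀ j ≤ k, p i = p j → i = j)
    (hadj : ∀ i < k, G.Adj (p i) (p (i + 1))) :
    ∃ T : SimpleGraph V, T ≤ G ∧ T.IsTree ∧ ∀ i < k, T.Adj (p i) (p (i + 1)) := by
  have key : ∀ j ≤ k, ∃ H : SimpleGraph V, H ≤ G ∧ H.IsAcyclic ∧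
      (∀ i < j, H.Adj (p i) (p (i + 1))) ∧ ∀ x y, H.Adj x y → ∃ i ≤ j, x = p i := by
    intro j
    induction j with
    | zero =>
      intro _
      exact ⟨⊥, bot_le, isAcyclic_bot, by simp, by simp⟩
    | succ j ih =>
      intro hj
      obtain ⟨H, h1, h2, h3, h4⟩ := ih (by omega)
      have hne : p (j + 1) ≠ p j := fun h => by
        have := hinj _ hj _ (by omega) h
        omega
      have hnr : ¬ H.Reachable (p j) (p (j + 1)) := by
        intro hr
        obtain ⟨w⟩ := hr.symm
        obtain ⟨x, h, w', -⟩ := Walk.exists_eq_cons_of_ne hne w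
        obtain ⟨i, hi, hpi⟩ := h4 _ _ h
        have := hinj _ hj _ (by omega) hpi
        omega
      refine ⟨H ⊔ edge (p j) (p (j + 1)), ?_, h2.sup_edge_of_not_reachable hnr, ?_, ?_⟩
      · rw [sup_le_iff]
        refine ⟨h1, ?_⟩
        intro x y hxy
        rw [edge_adj] at hxy
        obtain ⟨⟨rfl, rfl⟩ | ⟨rfl, rfl⟩, -⟩ := hxy
        · exact hadj j (by omega)
        · exact (hadj j (by omega)).symm
      · intro i hi
        rw [sup_adj, edge_adj]
        rcases Nat.lt_succ_iff_lt_or_eq.1 hi with h | rfl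
        · exact Or.inl (h3 i h)
        · exact Or.inr ⟨Or.inl ⟨rfl, rfl⟩, hne.symm⟩
      · intro x y hxy
        rw [sup_adj, edge_adj] at hxy
        rcases hxy with hxy | ⟨⟨rfl, -⟩ | ⟨rfl, -⟩, -⟩
        · obtain ⟨i, hi, h⟩ := h4 x y hxy
          exact ⟨i, by omega, h⟩
        · exact ⟨j, by omega, rfl⟩
        · exact ⟨j + 1, le_rfl, rfl⟩
  obtain ⟨H, h1, h2, h3, -⟩ := key k le_rfl
  obtain ⟨T, hT1, hT2, hT3⟩ := hG.exists_isTree_le_of_le_of_isAcyclic h1 h2
  exact ⟨T, hT2, hT3, fun i hi => hT1 (h3 i hi)⟩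

/-- fold along a walk -/
def foldW {T : SimpleGraph V} {X : Type*} (s : V → V → X → X) :
    ∀ {u v : V}, T.Walk u v → X → X
  | _, _, .nil, x => x
  | u, _, .cons (v := w) _ p, x => foldW s p (s u w x)

lemma foldW_concat {T : SimpleGraph V} {X : Type*} (s : V → V → X → X) {u v w : V}
    (p : T.Walk u v) (h : T.Adj v w) (x : X) :
    foldW s (p.concat h) x = s v w (foldW s p x) := by
  induction p generalizing x with
  | nil => rfl
  | cons h' p ih =>
    rw [Walk.concat_cons]
    exact ih h _

/-- Assignments along a tree. -/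
lemma exists_assignment {T : SimpleGraph V} (hT : T.IsTree) {X : Type*} (s : V → V → X → X)
    (x0 : X) (k : ℕ) (p : ℕ → V) (hinj : ∀ i ≤ k, ∀ j ≤ k, p i = p j → i = j)
    (hadj : ∀ i < k, T.Adj (p i) (p (i + 1))) :
    ∃ f : V → X, f (p 0) = x0 ∧
      (∀ u v, T.Adj u v → f v = s u v (f u) ∨ f u = s v u (f v)) ∧
      ∀ i < k, f (p (i + 1)) = s (p i) (p (i + 1)) (f (p i)) := by
  classical
  choose w hw hwu using fun v => hT.existsUnique_path (p 0) v
  have huniq : ∀ v (q : T.Walk (p 0) v), q.IsPath → foldW s q x0 = foldW s (w v) x0 := by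
    intro v q hq
    rw [hwu v q hq]
  refine ⟨fun v => foldW s (w v) x0, ?_, ?_, ?_⟩
  · exact (huniq (p 0) Walk.nil Walk.IsPath.nil).symm
  · intro u v huv
    by_cases hv : v ∈ (w u).support
    · right
      have := hT.IsAcyclic.path_concat (hw v) (hw u) huv.symm hv
      change foldW s (w u) x0 = _
      rw [this, foldW_concat]
    · left
      have h1 : ((w u).concat huv).IsPath := (hw u).concat hv huv
      change foldW s (w v) x0 = _
      rw [← huniq v _ h1, foldW_concat]
  · -- along the path
    have key : ∀ j ≤ k, ∃ q : T.Walk (p 0) (p j), q.IsPath ∧ ∀ x ∈ q.support, ∃ i ≤ j, x = p i := by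
      intro j
      induction j with
      | zero =>
        intro _
        exact ⟨Walk.nil, Walk.IsPath.nil, by simp⟩
      | succ j ih =>
        intro hj
        obtain ⟨q, hq, hs⟩ := ih (by omega)
        have hnot : p (j + 1) ∉ q.support := by
          intro hmem
          obtain ⟨i, hi, h⟩ := hs _ hmem
          have := hinj _ hj _ (by omega) h
          omega
        refine ⟨q.concat (hadj j (by omega)), hq.concat hnot _, ?_⟩
        intro x hx
        rw [Walk.support_concat, List.mem_append] at hx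
        rcases hx with hx | hx
        · obtain ⟨i, hi, h⟩ := hs x hx
          exact ⟨i, by omega, h⟩
        · rw [List.mem_singleton] at hx
          exact ⟨j + 1, le_rfl, hx⟩
    intro i hi
    obtain ⟨q, hq, hs⟩ := key i hi.le
    have hnot : p (i + 1) ∉ q.support := by
      intro hmem
      obtain ⟨j, hj, h⟩ := hs _ hmem
      have := hinj _ (by omega) _ (by omega) h
      omega
    have h1 : (q.concat (hadj i hi)).IsPath := hq.concat hnot _
    change foldW s (w (p (i + 1))) x0 = s _ _ (foldW s (w (p i)) x0)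
    rw [← huniq _ _ h1, foldW_concat, huniq _ _ hq]

end Pool.Agent.V11178.Net
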