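import Pool.Agent.V11178.Net.Geom
import Pool.Agent.V11178.Net.Tree

/-!
# Developing the facets along a tree, and a criterion for overlap
-/

namespace Pool.Agent.V11178.Net

open Module RealInnerProductSpace

/-- The displacement of the centre when passing from the facet at `u` to the facet at `v`. -/
noncomputable def dvec (ν κ : ℝ) (u v : E 4) : E 4 := (2 / (ν + κ)) • (ν • v - κ • u)

/-- The rotation in the plane of `u`, `v` which carries `v` to `u`. -/
noncomputable def tauMap (ν κ : ℝ) (u v x : E 4) : E 4 :=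
  x - (⟪u + v, x⟫ / (ν + κ)) • (u + v) + (2 * ⟪v, x⟫ / ν) • u

/-- The total displacement of the centre along `p i, …, p (i + m)`, as seen from the facet at
`p i`. -/
noncomputable def disp (ν κ : ℝ) (p : ℕ → E 4) : ℕ → ℕ → E 4
  | _, 0 => 0
  | i, m + 1 => dvec ν κ (p i) (p (i + 1)) + tauMap ν κ (p i) (p (i + 1)) (disp ν κ p (i + 1) m)

section tau

variable {ν κ : ℝ} (hpos : 0 < ν) (hk0 : 0 ≤ κ) {u v : E 4} (huu : ⟪u, u⟫ = ν) (hvv : ⟪v, v⟫ = ν)
  (huv : ⟪u, v⟫ = κ)

/-- `tauMap` as a linear map. -/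
noncomputable def tauL (ν κ : ℝ) (u v : E 4) : E 4 →ₗ[ℝ] E 4 where
  toFun := tauMap ν κ u v
  map_add' x y := by
    simp only [tauMap, inner_add_right, mul_add, add_div, add_smul]
    abel
  map_smul' a x := by
    simp only [tauMap, real_inner_smul_right, RingHom.id_apply, smul_add, smul_sub, smul_smul]
    congr 3 <;> ring_nf

include hpos hk0 huu hvv huv in
lemma inner_tau (x y : E 4) : ⟪tauMap ν κ u v x, tauMap ν κ u v y⟫ = ⟪x, y⟫ := by
  have hvu : ⟪v, u⟫ = κ := by rw [real_inner_comm]; exact huv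
  have h1 : ν + κ ≠ 0 := by positivity
  simp only [tauMap, inner_add_left, inner_add_right, inner_sub_left, inner_sub_right,
    real_inner_smul_left, real_inner_smul_right, huu, hvv, huv, hvu, real_inner_comm u x,
    real_inner_comm v x]
  field_simp
  ring

include hpos hk0 hvv huv in
lemma tau_v : tauMap ν κ u v v = u := by
  have h1 : ν + κ ≠ 0 := by positivity
  have h2 : ν ≠ 0 := hpos.ne'
  rw [tauMap, inner_add_left, huv, hvv, add_comm κ ν, div_self h1, one_smul, mul_div_assoc,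
    div_self h2, mul_one, two_smul]
  abel

/-- The rotation as a linear isometry equivalence. -/
noncomputable def tauE (hpos : 0 < ν) (hk0 : 0 ≤ κ) (huu : ⟪u, u⟫ = ν) (hvv : ⟪v, v⟫ = ν)
    (huv : ⟪u, v⟫ = κ) : E 4 ≃ₗᵢ[ℝ] E 4 :=
  LinearIsometry.toLinearIsometryEquiv
    ⟨tauL ν κ u v, fun x => by
      have h := inner_tau hpos hk0 huu hvv huv x x
      rw [real_inner_self_eq_norm_sq, real_inner_self_eq_norm_sq] at h
      exact (sq_eq_sq₀ (norm_nonneg _) (norm_nonneg _)).1 h⟩ rfl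

lemma tauE_apply (x : E 4) : tauE hpos hk0 huu hvv huv x = tauMap ν κ u v x := rfl

include hpos hk0 huu huv in
lemma inner_u_dvec : ⟪u, dvec ν κ u v⟫ = 0 := by
  rw [dvec, real_inner_smul_right, inner_sub_right, real_inner_smul_right, real_inner_smul_right,
    huu, huv]
  ring

/-- the hinge identity -/
lemma hinge_id (hpos : 0 < ν) (hk0 : 0 ≤ κ) (hvv : ⟪v, v⟫ = ν) (huv : ⟪u, v⟫ = κ) {x : E 4}
    (hux : ⟪u, x⟫ = ν) (hvx : ⟪v, x⟫ = ν) :
    dvec ν κ u v + tauMap ν κ u v (x - v) = x - u := by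
  have h1 : ν + κ ≠ 0 := by positivity
  have h2 : ν ≠ 0 := hpos.ne'
  have e1 : ⟪u + v, x - v⟫ = ν - κ := by
    rw [inner_add_left, inner_sub_right, inner_sub_right, hux, hvx, huv, hvv]
    ring
  have e2 : ⟪v, x - v⟫ = 0 := by
    rw [inner_sub_right, hvx, hvv, sub_self]
  rw [dvec, tauMap, e1, e2, mul_zero, zero_div, zero_smul, add_zero]
  have e3 : (2 / (ν + κ)) • (ν • v - κ • u) - ((ν - κ) / (ν + κ)) • (u + v) = v - u := by
    have e4 : (2 / (ν + κ)) • (ν • v - κ • u) - ((ν - κ) / (ν + κ)) • (u + v) =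
        ((2 * ν - (ν - κ)) / (ν + κ)) • v - ((2 * κ + (ν - κ)) / (ν + κ)) • u := by
      module
    rw [e4]
    have e5 : (2 * ν - (ν - κ)) / (ν + κ) = 1 := by field_simp; ring
    have e6 : (2 * κ + (ν - κ)) / (ν + κ) = 1 := by field_simp; ring
    rw [e5, e6, one_smul, one_smul]
  calc (2 / (ν + κ)) • (ν • v - κ • u) + (x - v - ((ν - κ) / (ν + κ)) • (u + v))
      = ((2 / (ν + κ)) • (ν • v - κ • u) - ((ν - κ) / (ν + κ)) • (u + v)) + (x - v) := by abel
    _ = x - u := by rw [e3]; abel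

/-- inner products with the direction normal to the ridge -/
lemma inner_w_tau (hpos : 0 < ν) (hk0 : 0 ≤ κ) (huu : ⟪u, u⟫ = ν) (hvv : ⟪v, v⟫ = ν)
    (huv : ⟪u, v⟫ = κ) (x : E 4) :
    ⟪ν • v - κ • u, dvec ν κ u v + tauMap ν κ u v (x - v)⟫ = ν * (2 * ν - κ - ⟪u, x⟫) +
      κ * (⟪v, x⟫ - ν) := by
  have hvu : ⟪v, u⟫ = κ := by rw [real_inner_comm]; exact huv
  have h1 : ν + κ ≠ 0 := by positivity
  have h2 : ν ≠ 0 := hpos.ne'
  simp only [dvec, tauMap, inner_add_left, inner_add_right, inner_sub_left, inner_sub_right,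
    real_inner_smul_left, real_inner_smul_right, huu, hvv, huv, hvu]
  field_simp
  ring

end tau

/-- The graph on the points of tangency: pairs at minimal distance. -/
def codeGraph (N : Set (E 4)) (κ : ℝ) : SimpleGraph N where
  Adj u v := u ≠ v ∧ ⟪(u : E 4), (v : E 4)⟫ = κ
  symm := ⟨fun u v h => ⟨h.1.symm, by rw [real_inner_comm]; exact h.2⟩⟩
  loopless := ⟨fun u h => h.1 rfl⟩

/-- An isometric projection along `p0`. -/
lemma exists_L0 {p0 : E 4} (hp0 : p0 ≠ 0) :
    ∃ L : E 4 →ₗ[ℝ] E 3, (∀ x y, ⟪p0, x⟫ = 0 → ⟪p0, y⟫ = 0 → ⟪L x, L y⟫ = ⟪x, y⟫) ∧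
      (∀ z : E 3, ∃ x, ⟪p0, x⟫ = 0 ∧ L x = z) ∧ ∀ x, ‖L x‖ ≤ ‖x‖ := by
  let K : Submodule ℝ (E 4) := (ℝ ∙ p0)ᗮ
  let e : K ≃ₗᵢ[ℝ] E 3 := (OrthonormalBasis.fromOrthogonalSpanSingleton (𝕜 := ℝ) 3 hp0).repr
  have hmem : ∀ x, ⟪p0, x⟫ = 0 → x ∈ K := fun x hx =>
    Submodule.mem_orthogonal_singleton_iff_inner_right.2 hx
  refine ⟨e.toLinearEquiv.toLinearMap ∘ₗ (K.orthogonalProjectionOnto : E 4 →ₗ[ℝ] K), ?_, ?_, ?_⟩
  · intro x y hx hy
    change ⟪e (K.orthogonalProjectionOnto x), e (K.orthogonalProjectionOnto y)⟫ = _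
    rw [LinearIsometryEquiv.inner_map_map]
    have h1 : K.orthogonalProjectionOnto x = ⟨x, hmem x hx⟩ :=
      Submodule.orthogonalProjectionOnto_mem_subspace_eq_self (⟨x, hmem x hx⟩ : K)
    have h2 : K.orthogonalProjectionOnto y = ⟨y, hmem y hy⟩ :=
      Submodule.orthogonalProjectionOnto_mem_subspace_eq_self (⟨y, hmem y hy⟩ : K)
    rw [h1, h2]
    rfl
  · intro z
    refine ⟨(e.symm z : E 4), Submodule.mem_orthogonal_singleton_iff_inner_right.1 (e.symm z).2, ?_⟩
    change e (K.orthogonalProjectionOnto (e.symm z : E 4)) = z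
    rw [Submodule.orthogonalProjectionOnto_mem_subspace_eq_self, LinearIsometryEquiv.apply_symm_apply]
  · intro x
    change ‖e (K.orthogonalProjectionOnto x)‖ ≤ ‖x‖
    rw [LinearIsometryEquiv.norm_map]
    exact K.norm_orthogonalProjectionOnto_apply_le x

section main

variable {N : Set (E 4)} {ν κ : ℝ}

/-- The state attached to a facet: an isometry of `ℝ⁴` and the position of the centre. -/
abbrev State := (E 4 ≃ₗᵢ[ℝ] E 4) × E 3

open Classical in
/-- One step of the development. -/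
noncomputable def step (hN : Code N ν κ) (L : E 4 →ₗ[ℝ] E 3) (u v : N) (s : State) : State :=
  if h : ⟪(u : E 4), (v : E 4)⟫ = κ then
    ((tauE hN.pos hN.knn (hN.norm u u.2) (hN.norm v v.2) h).trans s.1,
      s.2 + L (s.1 (dvec ν κ u v)))
  else s

/-- The placement of the facet at `u`. -/
noncomputable def place (L : E 4 →ₗ[ℝ] E 3) (s : State) (u x : E 4) : E 3 := s.2 + L (s.1 (x - u))

/-- `L` is isometric on the orthogonal complement of `p0`. -/
def IsoOn (L : E 4 →ₗ[ℝ] E 3) (p0 : E 4) : Prop :=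
  ∀ x y, ⟪p0, x⟫ = 0 → ⟪p0, y⟫ = 0 → ⟪L x, L y⟫ = ⟪x, y⟫

lemma place_dist {L : E 4 →ₗ[ℝ] E 3} {p0 : E 4} (hL : IsoOn L p0) {s : State} {u : E 4}
    (hs : s.1 u = p0) {x y : E 4} (hxy : ⟪u, x⟫ = ⟪u, y⟫) :
    dist (place L s u x) (place L s u y) = dist x y := by
  rw [dist_eq_norm, dist_eq_norm]
  have h1 : place L s u x - place L s u y = L (s.1 (x - y)) := by
    unfold place
    rw [add_sub_add_left_eq_sub, ← map_sub, ← map_sub]
    congr 2
    abel
  have h2 : ⟪p0, s.1 (x - y)⟫ = 0 := by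
    rw [← hs, LinearIsometryEquiv.inner_map_map, inner_sub_right, hxy, sub_self]
  rw [h1]
  have h3 := hL _ _ h2 h2
  rw [LinearIsometryEquiv.inner_map_map, real_inner_self_eq_norm_sq,
    real_inner_self_eq_norm_sq] at h3
  exact (sq_eq_sq₀ (norm_nonneg _) (norm_nonneg _)).1 h3

lemma step_apply (hN : Code N ν κ) (L : E 4 →ₗ[ℝ] E 3) {u v : N} (s : State)
    (h : ⟪(u : E 4), (v : E 4)⟫ = κ) (x : E 4) :
    (step hN L u v s).1 x = s.1 (tauMap ν κ u v x) := by
  rw [step, dif_pos h]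
  rfl

lemma step_snd (hN : Code N ν κ) (L : E 4 →ₗ[ℝ] E 3) {u v : N} (s : State)
    (h : ⟪(u : E 4), (v : E 4)⟫ = κ) :
    (step hN L u v s).2 = s.2 + L (s.1 (dvec ν κ u v)) := by
  rw [step, dif_pos h]

lemma step_center (hN : Code N ν κ) (L : E 4 →ₗ[ℝ] E 3) {u v : N} (s : State)
    (h : ⟪(u : E 4), (v : E 4)⟫ = κ) : (step hN L u v s).1 v = s.1 u := by
  rw [step_apply hN L s h, tau_v hN.pos hN.knn (hN.norm v v.2) h]

lemma place_step (hN : Code N ν κ) (L : E 4 →ₗ[ℝ] E 3) {u v : N} (s : State)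
    (h : ⟪(u : E 4), (v : E 4)⟫ = κ) (x : E 4) :
    place L (step hN L u v s) v x =
      s.2 + L (s.1 (dvec ν κ u v + tauMap ν κ u v (x - v))) := by
  rw [place, step_apply hN L s h, step_snd hN L s h, map_add, map_add, add_assoc]

lemma hinge_step (hN : Code N ν κ) (L : E 4 →ₗ[ℝ] E 3) {u v : N} (s : State)
    (h : ⟪(u : E 4), (v : E 4)⟫ = κ) {x : E 4} (hx : x ∈ fac N u ∩ fac N v) :
    place L (step hN L u v s) v x = place L s u x := by
  rw [Set.mem_inter_iff, hN.mem_fac_iff u.2, hN.mem_fac_iff v.2] at hx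
  rw [place_step hN L s h, hinge_id hN.pos hN.knn (hN.norm v v.2) h hx.1.2 hx.2.2, place]

lemma opp_step (hN : Code N ν κ) {L : E 4 →ₗ[ℝ] E 3} {p0 : E 4} (hL : IsoOn L p0) {u v : N}
    {s : State} (hs : s.1 u = p0) (h : ⟪(u : E 4), (v : E 4)⟫ = κ) :
    ∃ (w : E 3) (c : ℝ), w ≠ 0 ∧ (∀ x ∈ fac N u, ⟪w, place L s u x⟫ ≤ c) ∧
      (∀ x ∈ fac N v, c ≤ ⟪w, place L (step hN L u v s) v x⟫) := by
  have hpos := hN.pos
  have hk0 := hN.knn
  have hk := hN.klt
  have huu := hN.norm u u.2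
  have hvv := hN.norm v v.2
  have hvu : ⟪(v : E 4), (u : E 4)⟫ = κ := by rw [real_inner_comm]; exact h
  set a : E 4 := ν • (v : E 4) - κ • (u : E 4) with ha
  have hua : ⟪(u : E 4), a⟫ = 0 := by
    rw [ha, inner_sub_right, real_inner_smul_right, real_inner_smul_right, huu, h]
    ring
  have hpa : ⟪p0, s.1 a⟫ = 0 := by rw [← hs, LinearIsometryEquiv.inner_map_map, hua]
  have hkey : ∀ y : E 4, ⟪(u : E 4), y⟫ = 0 → ⟪L (s.1 a), L (s.1 y)⟫ = ⟪a, y⟫ := by
    intro y hy
    have : ⟪p0, s.1 y⟫ = 0 := by rw [← hs, LinearIsometryEquiv.inner_map_map, hy]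
    rw [hL _ _ hpa this, LinearIsometryEquiv.inner_map_map]
  refine ⟨L (s.1 a), ⟪L (s.1 a), s.2⟫ + ν * (ν - κ), ?_, ?_, ?_⟩
  · intro h0
    have h1 := hkey a hua
    rw [h0, inner_zero_left] at h1
    simp only [ha, inner_sub_left, inner_sub_right,
      real_inner_smul_left, real_inner_smul_right, huu, hvv, h, hvu] at h1
    have h2 : 0 < ν * ((ν - κ) * (ν + κ)) := mul_pos hpos (mul_pos (by linarith) (by linarith))
    nlinarith
  · intro x hx
    rw [hN.mem_fac_iff u.2] at hx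
    have hux : ⟪(u : E 4), x - u⟫ = 0 := by rw [inner_sub_right, hx.2, huu, sub_self]
    rw [place, inner_add_right, hkey _ hux]
    have h1 : ⟪a, x - u⟫ = ν * ⟪(v : E 4), x⟫ - ν * κ := by
      rw [ha, inner_sub_left, inner_sub_right, inner_sub_right, real_inner_smul_left,
        real_inner_smul_left, real_inner_smul_left, real_inner_smul_left, huu, hvu, hx.2]
      ring
    rw [h1]
    have := hx.1 v v.2
    nlinarith
  · intro x hx
    rw [hN.mem_fac_iff v.2] at hx
    have hux : ⟪(u : E 4), dvec ν κ u v + tauMap ν κ u v (x - v)⟫ = 0 := by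
      rw [inner_add_right, inner_u_dvec hpos hk0 huu h, zero_add]
      have h2 := inner_tau hpos hk0 huu hvv h (v : E 4) (x - v)
      rw [tau_v hpos hk0 hvv h] at h2
      rw [h2, inner_sub_right, hx.2, hvv, sub_self]
    rw [place_step hN L s h, inner_add_right, hkey _ hux, ha,
      inner_w_tau hpos hk0 huu hvv h, hx.2]
    have := hx.1 u u.2
    nlinarith

/-- The image of a facet contains a ball. -/
lemma ball_subset (hN : Code N ν κ) {L : E 4 →ₗ[ℝ] E 3} {p0 : E 4} (hL : IsoOn L p0)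
    (hsurj : ∀ z : E 3, ∃ x, ⟪p0, x⟫ = 0 ∧ L x = z) {v : N} {s : State} (hs : s.1 v = p0)
    {y : E 3} (hy : ‖y - s.2‖ ^ 2 * (ν + κ) ≤ ν * (ν - κ)) :
    y ∈ place L s v '' fac N v := by
  obtain ⟨z, hz1, hz2⟩ := hsurj (y - s.2)
  refine ⟨v + s.1.symm z, ?_, ?_⟩
  · apply hN.inball v.2
    · have h1 : ⟪s.1 v, s.1 (s.1.symm z)⟫ = ⟪(v : E 4), s.1.symm z⟫ :=
        LinearIsometryEquiv.inner_map_map _ _ _
      rw [← h1, LinearIsometryEquiv.apply_symm_apply, hs, hz1]
    · have h1 : ⟪s.1.symm z, s.1.symm z⟫ = ⟪z, z⟫ := LinearIsometryEquiv.inner_map_map _ _ _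
      have h2 := hL z z hz1 hz1
      rw [h1, ← h2, hz2, real_inner_self_eq_norm_sq]
      exact hy
  · rw [place, add_sub_cancel_left, LinearIsometryEquiv.apply_symm_apply, hz2]
    abel

/-- **Criterion.**  If the total displacement along a path in the graph of nearest neighbours is
smaller than the diameter of the inscribed balls of the facets, then the polytope circumscribed at
the points of the code is not all-net. -/
theorem not_allNet (hN : Code N ν κ) (hconn : (codeGraph N κ).Connected) (k : ℕ) (p : ℕ → N)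
    (hinj : ∀ i ≤ k, ∀ j ≤ k, p i = p j → i = j)
    (hadj : ∀ i < k, (codeGraph N κ).Adj (p i) (p (i + 1))) (hk1 : 0 < k)
    (hdisp : ⟪disp ν κ (fun i => (p i : E 4)) 0 k, disp ν κ (fun i => (p i : E 4)) 0 k⟫ * (ν + κ) <
      4 * (ν * (ν - κ))) :
    ¬ AllNet (circum N) := by
  obtain ⟨T, hTle, hT, hTp⟩ := exists_tree_of_path hconn k p hinj hadj
  obtain ⟨L, hL, hsurj, hLn⟩ := exists_L0 (hN.ne_zero (p 0).2)
  obtain ⟨f, hf0, hfe, hfp⟩ := exists_assignment hT (step hN L)
    ((LinearIsometryEquiv.refl ℝ (E 4), 0) : State) k p hinj hTp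
  have hTκ : ∀ u v : N, T.Adj u v → ⟪(u : E 4), (v : E 4)⟫ = κ := fun u v h => (hTle h).2
  have hTκ' : ∀ u v : N, T.Adj u v → ⟪(v : E 4), (u : E 4)⟫ = κ := fun u v h => hTκ v u h.symm
  -- the invariant
  have hinv : ∀ v : N, (f v).1 v = (p 0 : E 4) := by
    have hedge : ∀ u v : N, T.Adj u v → (f v).1 v = (f u).1 u := by
      intro u v huv
      rcases hfe u v huv with h | h
      · rw [h]
        exact step_center hN L _ (hTκ u v huv)
      · rw [h]
        exact (step_center hN L _ (hTκ' u v huv)).symm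
    have hreach : ∀ u v : N, T.Reachable u v → (f v).1 v = (f u).1 u := by
      rintro u v ⟨w⟩
      induction w with
      | nil => rfl
      | cons h _ ih => rw [ih, hedge _ _ h]
    intro v
    rw [hreach (p 0) v (hT.connected (p 0) v), hf0]
    rfl
  -- facets and points
  have hfac : ∀ F : Facet (d := 2) (circum N), ∃ q : N, F.1 = fac N q := by
    intro F
    obtain ⟨q, hq, h⟩ := hN.facet_cases F.2
    exact ⟨⟨q, hq⟩, h⟩
  choose pt hpt using hfac
  let fc : N → Facet (d := 2) (circum N) := fun q => ⟨fac N q, hN.facet q.2⟩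
  have hptfc : ∀ q, pt (fc q) = q := by
    intro q
    have h := hpt (fc q)
    exact Subtype.ext (hN.fac_injOn q.2 (pt (fc q)).2 h).symm
  have hfcpt : ∀ F, fc (pt F) = F := fun F => Subtype.ext (hpt F).symm
  let e : Facet (d := 2) (circum N) ≃ N := ⟨pt, fc, hfcpt, hptfc⟩
  intro hall
  have hunf : IsRidgeUnfolding (d := 2) (circum N) (T.comap e)
      (fun F x => place L (f (pt F)) (pt F) x) := by
    refine ⟨?_, ?_, ?_, ?_, ?_⟩
    · intro F G hFG
      have h1 : T.Adj (pt F) (pt G) := hFG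
      refine ⟨fun h => ?_, ?_⟩
      · subst h
        exact h1.ne rfl
      · rw [hpt F, hpt G]
        exact hN.ridge (pt F).2 (pt G).2 (hTκ _ _ h1)
    · exact (SimpleGraph.Iso.comap e T).isTree_iff.2 hT
    · intro F x hx y hy
      rw [hpt F, hN.mem_fac_iff (pt F).2] at hx hy
      exact place_dist hL (hinv _) (by rw [hx.2, hy.2])
    · intro F G hFG x hx
      have h1 : T.Adj (pt F) (pt G) := hFG
      rw [hpt F, hpt G] at hx
      rcases hfe _ _ h1 with h | h
      · change place L (f (pt F)) (pt F) x = place L (f (pt G)) (pt G) x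
        rw [h]
        exact (hinge_step hN L _ (hTκ _ _ h1) hx).symm
      · change place L (f (pt F)) (pt F) x = place L (f (pt G)) (pt G) x
        rw [h]
        exact hinge_step hN L _ (hTκ' _ _ h1) ⟨hx.2, hx.1⟩
    · intro F G hFG
      have h1 : T.Adj (pt F) (pt G) := hFG
      rcases hfe _ _ h1 with h | h
      · obtain ⟨w, c, hw, hw1, hw2⟩ := opp_step hN hL (hinv (pt F)) (hTκ _ _ h1)
        refine ⟨w, c, hw, ?_, ?_⟩
        · intro x hx
          rw [hpt F] at hx
          exact hw1 x hx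
        · intro x hx
          rw [hpt G] at hx
          change c ≤ ⟪w, place L (f (pt G)) (pt G) x⟫
          rw [h]
          exact hw2 x hx
      · obtain ⟨w, c, hw, hw1, hw2⟩ := opp_step hN hL (hinv (pt G)) (hTκ' _ _ h1)
        refine ⟨-w, -c, neg_ne_zero.2 hw, ?_, ?_⟩
        · intro x hx
          rw [hpt F] at hx
          change ⟪-w, place L (f (pt F)) (pt F) x⟫ ≤ -c
          rw [h, inner_neg_left]
          exact neg_le_neg (hw2 x hx)
        · intro x hx
          rw [hpt G] at hx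
          rw [inner_neg_left]
          exact neg_le_neg (hw1 x hx)
  -- displacement along the path
  have hcent : ∀ m ≤ k, (f (p k)).2 = (f (p (k - m))).2 +
      L ((f (p (k - m))).1 (disp ν κ (fun i => (p i : E 4)) (k - m) m)) := by
    intro m
    induction m with
    | zero =>
      intro _
      simp [disp]
    | succ m ih =>
      intro hm
      have hi : k - m = (k - (m + 1)) + 1 := by omega
      have h1 := ih (by omega)
      set i := k - (m + 1) with hidef
      have hik : i < k := by omega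
      have h2 := hfp i hik
      have h3 := hTκ _ _ (hTp i hik)
      rw [hi, h2, step_snd hN L _ h3, step_apply hN L _ h3] at h1
      rw [h1, disp, map_add, map_add, add_assoc]
  have h1 := hcent k le_rfl
  rw [Nat.sub_self, hf0] at h1
  simp only [zero_add] at h1
  have h2 : (f (p 0)).2 = 0 := by rw [hf0]
  set S := disp ν κ (fun i => (p i : E 4)) 0 k with hS
  have h3 : ‖(f (p k)).2‖ ^ 2 * (ν + κ) < 4 * (ν * (ν - κ)) := by
    have h4 : ‖(f (p k)).2‖ ≤ ‖S‖ := by
      rw [h1]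
      exact hLn _
    have h5 : ‖(f (p k)).2‖ ^ 2 ≤ ⟪S, S⟫ := by
      rw [real_inner_self_eq_norm_sq]
      exact pow_le_pow_left₀ (norm_nonneg _) h4 2
    have h6 : 0 < ν + κ := by linarith [hN.pos, hN.knn]
    nlinarith
  set c := (f (p k)).2 with hc
  -- the midpoint lies in both interiors
  have hne : fc (p 0) ≠ fc (p k) := by
    intro h
    have h4 := congrArg pt h
    rw [hptfc, hptfc] at h4
    have := hinj 0 (by omega) k le_rfl h4
    omega
  have hopen : ∀ b : E 3, IsOpen {y : E 3 | ‖y - b‖ ^ 2 * (ν + κ) < ν * (ν - κ)} := by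
    intro b
    exact isOpen_lt (by fun_prop) continuous_const
  have hmid : ∀ b : E 3, ‖(1 / 2 : ℝ) • c - b‖ = (1 / 2) * ‖c‖ →
      (1 / 2 : ℝ) • c ∈ {y : E 3 | ‖y - b‖ ^ 2 * (ν + κ) < ν * (ν - κ)} := by
    intro b hb
    change ‖(1 / 2 : ℝ) • c - b‖ ^ 2 * (ν + κ) < ν * (ν - κ)
    rw [hb]
    nlinarith
  have hint : ∀ q : N, ‖(1 / 2 : ℝ) • c - (f q).2‖ = (1 / 2) * ‖c‖ →
      (1 / 2 : ℝ) • c ∈ intrinsicInterior ℝ
        ((fun x => place L (f (pt (fc q))) (pt (fc q)) x) '' (fc q).1) := by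
    intro q hq
    apply interior_subset_intrinsicInterior
    rw [mem_interior]
    refine ⟨_, ?_, hopen (f q).2, hmid _ hq⟩
    intro y hy
    rw [hptfc]
    exact ball_subset hN hL hsurj (hinv q) (le_of_lt hy)
  have hdis := hall _ _ hunf (fc (p 0)) (fc (p k)) hne
  refine Set.disjoint_left.1 hdis (hint (p 0) ?_) (hint (p k) ?_)
  · rw [h2, sub_zero, norm_smul]
    norm_num
  · rw [← hc]
    have : (1 / 2 : ℝ) • c - c = -((1 / 2 : ℝ) • c) := by
      module
    rw [this, norm_neg, norm_smul]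
    norm_num

end main

end Pool.Agent.V11178.Net
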