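import Pool.Agent.V11178.Net.Basic

/-!
# Geometry of the polytope circumscribed about a sphere at the points of a spherical code
-/

namespace Pool.Agent.V11178.Net

open Module RealInnerProductSpace

/-- `N` is a finite spherical code in `ℝ⁴`: all points have squared norm `ν` and distinct points
have inner product at most `κ < ν`. -/
structure Code (N : Set (E 4)) (ν κ : ℝ) : Prop where
  fin : N.Finite
  ne : N.Nonempty
  pos : 0 < ν
  knn : 0 ≤ κ
  klt : κ < ν
  norm : ∀ p ∈ N, ⟪p, p⟫ = ν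
  pair : ∀ p ∈ N, ∀ q ∈ N, p ≠ q → ⟪p, q⟫ ≤ κ

/-- the facet with point of tangency `p` -/
def fac (N : Set (E 4)) (p : E 4) : Set (E 4) := {x ∈ circum N | ⟪p, x⟫ = ⟪p, p⟫}

variable {N : Set (E 4)} {ν κ : ℝ}

instance : Fact (finrank ℝ (E 4) = 3 + 1) := ⟨by simp⟩

lemma Code.mem_fac_iff (hN : Code N ν κ) {p : E 4} (hp : p ∈ N) (x : E 4) :
    x ∈ fac N p ↔ (∀ q ∈ N, ⟪q, x⟫ ≤ ν) ∧ ⟪p, x⟫ = ν := by
  unfold fac circum
  simp only [Set.mem_ofPred_eq]
  rw [hN.norm p hp]
  constructor
  · rintro ⟨h1, h2⟩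
    exact ⟨fun q hq => (h1 q hq).trans_eq (hN.norm q hq), h2⟩
  · rintro ⟨h1, h2⟩
    exact ⟨fun q hq => (h1 q hq).trans_eq (hN.norm q hq).symm, h2⟩

lemma Code.mem_circum_iff (hN : Code N ν κ) (x : E 4) :
    x ∈ circum N ↔ ∀ q ∈ N, ⟪q, x⟫ ≤ ν := by
  unfold circum
  simp only [Set.mem_ofPred_eq]
  exact forall₂_congr fun q hq => by rw [hN.norm q hq]

/-- The ball inscribed in a facet. -/
lemma Code.inball (hN : Code N ν κ) {p : E 4} (hp : p ∈ N) (d : E 4) (hd : ⟪p, d⟫ = 0)
    (hr : ⟪d, d⟫ * (ν + κ) ≤ ν * (ν - κ)) : p + d ∈ fac N p := by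
  rw [hN.mem_fac_iff hp]
  have hpp := hN.norm p hp
  refine ⟨fun q hq => ?_, by rw [inner_add_right, hpp, hd, add_zero]⟩
  by_cases hqp : q = p
  · subst hqp
    rw [inner_add_right, hpp, hd, add_zero]
  · have ht : ⟪q, p⟫ ≤ κ := hN.pair q hq p hp hqp
    set t := ⟪q, p⟫ with htdef
    have hpos := hN.pos
    have hk := hN.klt
    have hk0 := hN.knn
    -- `⟪q, d⟫ = ⟪q - (t/ν) p, d⟫`
    have h1 : ⟪q, d⟫ = ⟪q - (t / ν) • p, d⟫ := by
      rw [inner_sub_left, real_inner_smul_left, hd]
      ring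
    have h2 : ⟪q - (t / ν) • p, q - (t / ν) • p⟫ = ν - t ^ 2 / ν := by
      rw [inner_sub_left, inner_sub_right, inner_sub_right, real_inner_smul_left,
        real_inner_smul_left, real_inner_smul_right, real_inner_smul_right, hN.norm q hq, hpp,
        real_inner_comm q p, ← htdef]
      field_simp
      ring
    have h3 : ⟪q, d⟫ ^ 2 ≤ (ν - t ^ 2 / ν) * ⟪d, d⟫ := by
      rw [h1, ← h2, sq]
      exact real_inner_mul_inner_self_le _ _
    have ht2 : -ν ≤ t := by
      have h4 : t * t ≤ ⟪q, q⟫ * ⟪p, p⟫ := real_inner_mul_inner_self_le q p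
      rw [hN.norm q hq, hpp] at h4
      nlinarith
    have h5 : (ν - t ^ 2 / ν) * ⟪d, d⟫ ≤ (ν - t) ^ 2 := by
      have hdd : ⟪d, d⟫ ≤ ν * (ν - κ) / (ν + κ) := by
        rw [le_div_iff₀ (by linarith)]
        exact hr
      have h6 : 0 ≤ ν - t ^ 2 / ν := by
        rw [sub_nonneg, div_le_iff₀ hpos]
        nlinarith
      calc (ν - t ^ 2 / ν) * ⟪d, d⟫ ≤ (ν - t ^ 2 / ν) * (ν * (ν - κ) / (ν + κ)) :=
            mul_le_mul_of_nonneg_left hdd h6
        _ = (ν - t) * ((ν + t) * (ν - κ) / (ν + κ)) := by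
            field_simp
            ring
        _ ≤ (ν - t) * (ν - t) := by
            apply mul_le_mul_of_nonneg_left _ (by linarith)
            rw [div_le_iff₀ (by linarith)]
            nlinarith
        _ = (ν - t) ^ 2 := by ring
    have h7 : ⟪q, d⟫ ≤ ν - t := by
      exact (le_abs_self _).trans (abs_le_of_sq_le_sq (h3.trans h5) (by linarith))
    rw [inner_add_right, ← htdef]
    linarith

lemma Code.self_mem (hN : Code N ν κ) {p : E 4} (hp : p ∈ N) : p ∈ fac N p := by
  have h := hN.inball hp 0 (by simp) (by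
    have := hN.klt
    have := hN.pos
    simp only [inner_zero_left, zero_mul]
    exact mul_nonneg (by linarith) (by linarith))
  simpa using h

lemma Code.vectorSpan_fac (hN : Code N ν κ) {p : E 4} (hp : p ∈ N) :
    vectorSpan ℝ (fac N p) = (ℝ ∙ p)ᗮ := by
  apply le_antisymm
  · rw [vectorSpan_def, Submodule.span_le]
    rintro _ ⟨x, hx, y, hy, rfl⟩
    rw [hN.mem_fac_iff hp] at hx hy
    change x - y ∈ (ℝ ∙ p)ᗮ
    rw [Submodule.mem_orthogonal_singleton_iff_inner_right, inner_sub_right, hx.2, hy.2, sub_self]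
  · intro d hd
    rw [Submodule.mem_orthogonal_singleton_iff_inner_right] at hd
    have hpos := hN.pos
    have hk := hN.klt
    have hk0 := hN.knn
    -- scale `d`
    obtain ⟨ε, hε, hε2⟩ : ∃ ε : ℝ, 0 < ε ∧ ε ^ 2 * ⟪d, d⟫ * (ν + κ) ≤ ν * (ν - κ) := by
      have hA : 0 < ν * (ν - κ) := mul_pos hpos (by linarith)
      have hB : 0 ≤ ⟪d, d⟫ * (ν + κ) := mul_nonneg real_inner_self_nonneg (by linarith)
      refine ⟨Real.sqrt (ν * (ν - κ) / (⟪d, d⟫ * (ν + κ) + 1)), Real.sqrt_pos.2 (by positivity), ?_⟩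
      rw [Real.sq_sqrt (by positivity), mul_assoc, div_mul_eq_mul_div, div_le_iff₀ (by linarith)]
      nlinarith
    have h1 : p + ε • d ∈ fac N p := by
      apply hN.inball hp
      · rw [real_inner_smul_right, hd, mul_zero]
      · rw [real_inner_smul_left, real_inner_smul_right]
        nlinarith
    have h2 := vsub_mem_vectorSpan ℝ h1 (hN.self_mem hp)
    rw [vsub_eq_sub, add_sub_cancel_left] at h2
    have h3 := Submodule.smul_mem _ ε⁻¹ h2
    rwa [smul_smul, inv_mul_cancel₀ hε.ne', one_smul] at h3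

lemma Code.ne_zero (hN : Code N ν κ) {p : E 4} (hp : p ∈ N) : p ≠ 0 := by
  rintro rfl
  have := hN.norm 0 hp
  rw [inner_zero_left] at this
  exact hN.pos.ne this

lemma Code.facet (hN : Code N ν κ) {p : E 4} (hp : p ∈ N) :
    IsFaceOfDim (circum N) 3 (fac N p) := by
  refine ⟨⟨p, ⟪p, p⟫, fun x hx => hx p hp, rfl⟩, ⟨p, hN.self_mem hp⟩, ?_⟩
  rw [hN.vectorSpan_fac hp]
  exact Submodule.finrank_orthogonal_span_singleton (hN.ne_zero hp)

/-- Two facets whose points of tangency are at minimal distance share a ridge. -/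
lemma Code.ridge (hN : Code N ν κ) {u v : E 4} (hu : u ∈ N) (hv : v ∈ N) (huv : ⟪u, v⟫ = κ) :
    IsFaceOfDim (circum N) 2 (fac N u ∩ fac N v) := by
  have hpos := hN.pos
  have hk := hN.klt
  have hk0 := hN.knn
  have huu := hN.norm u hu
  have hvv := hN.norm v hv
  have hvu : ⟪v, u⟫ = κ := by rw [real_inner_comm]; exact huv
  have hne : u ≠ v := by
    rintro rfl
    linarith
  -- the centre of the ridge
  set m : E 4 := (ν / (ν + κ)) • (u + v) with hm
  have hmem : ∀ d : E 4, ⟪u, d⟫ = 0 → ⟪v, d⟫ = 0 → (∀ q ∈ N, ⟪q, d⟫ ≤ ν * (ν - κ) / (ν + κ)) →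
      m + d ∈ fac N u ∩ fac N v := by
    intro d hud hvd hq
    have h1 : ⟪u, m + d⟫ = ν := by
      rw [hm, inner_add_right, real_inner_smul_right, inner_add_right, huu, huv, hud]
      field_simp
      ring
    have h2 : ⟪v, m + d⟫ = ν := by
      rw [hm, inner_add_right, real_inner_smul_right, inner_add_right, hvv, hvu, hvd]
      field_simp
      ring
    have h3 : ∀ q ∈ N, ⟪q, m + d⟫ ≤ ν := by
      intro q hqN
      by_cases hqu : q = u
      · rw [hqu, h1]
      by_cases hqv : q = v
      · rw [hqv, h2]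
      have a1 := hN.pair q hqN u hu hqu
      have a2 := hN.pair q hqN v hv hqv
      rw [hm, inner_add_right, real_inner_smul_right, inner_add_right]
      have a3 : ν / (ν + κ) * (⟪q, u⟫ + ⟪q, v⟫) ≤ ν / (ν + κ) * (κ + κ) :=
        mul_le_mul_of_nonneg_left (by linarith) (by positivity)
      have a4 : ν / (ν + κ) * (κ + κ) + ν * (ν - κ) / (ν + κ) = ν := by
        field_simp
        ring
      linarith [hq q hqN]
    exact ⟨(hN.mem_fac_iff hu _).2 ⟨h3, h1⟩, (hN.mem_fac_iff hv _).2 ⟨h3, h2⟩⟩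
  have hm_mem : m ∈ fac N u ∩ fac N v := by
    have := hmem 0 (by simp) (by simp) (fun q _ => by
      rw [inner_zero_right]
      exact div_nonneg (mul_nonneg hpos.le (by linarith)) (by linarith))
    simpa using this
  refine ⟨⟨u + v, ν + ν, fun x hx => ?_, ?_⟩, ⟨m, hm_mem⟩, ?_⟩
  · rw [hN.mem_circum_iff] at hx
    rw [inner_add_left]
    linarith [hx u hu, hx v hv]
  · ext x
    simp only [Set.mem_inter_iff, Set.mem_ofPred_eq, hN.mem_fac_iff hu, hN.mem_fac_iff hv,
      hN.mem_circum_iff, inner_add_left]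
    constructor
    · rintro ⟨⟨h1, h2⟩, ⟨_, h3⟩⟩
      exact ⟨h1, by rw [h2, h3]⟩
    · rintro ⟨h1, h2⟩
      have := h1 u hu
      have := h1 v hv
      exact ⟨⟨h1, by linarith⟩, ⟨h1, by linarith⟩⟩
  · -- the direction of the ridge
    have hspan : vectorSpan ℝ (fac N u ∩ fac N v) = (Submodule.span ℝ {u, v})ᗮ := by
      apply le_antisymm
      · rw [vectorSpan_def, Submodule.span_le]
        rintro _ ⟨x, hx, y, hy, rfl⟩
        rw [Set.mem_inter_iff, hN.mem_fac_iff hu, hN.mem_fac_iff hv] at hx hy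
        change x - y ∈ (Submodule.span ℝ {u, v})ᗮ
        rw [Submodule.mem_orthogonal]
        intro z hz
        rw [Submodule.mem_span_pair] at hz
        obtain ⟨a, b, rfl⟩ := hz
        rw [inner_add_left, real_inner_smul_left, real_inner_smul_left,
          inner_sub_right, inner_sub_right, hx.1.2, hy.1.2, hx.2.2, hy.2.2]
        ring
      · intro d hd
        rw [Submodule.mem_orthogonal] at hd
        have hud : ⟪u, d⟫ = 0 := hd u (Submodule.subset_span (by simp))
        have hvd : ⟪v, d⟫ = 0 := hd v (Submodule.subset_span (by simp))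
        -- scale `d`
        obtain ⟨B, hB⟩ : ∃ B : ℝ, ∀ q ∈ N, ⟪q, d⟫ ≤ B := by
          obtain ⟨B, hB⟩ := (hN.fin.image fun q => ⟪q, d⟫).bddAbove
          exact ⟨B, fun q hq => hB ⟨q, hq, rfl⟩⟩
        have hgap : 0 < ν * (ν - κ) / (ν + κ) := div_pos (mul_pos hpos (by linarith)) (by linarith)
        set ε := ν * (ν - κ) / (ν + κ) / (|B| + 1) with hε
        have hε0 : 0 < ε := by positivity
        have h1 := hmem (ε • d) (by rw [real_inner_smul_right, hud, mul_zero])
          (by rw [real_inner_smul_right, hvd, mul_zero]) (fun q hq => by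
            rw [real_inner_smul_right]
            calc ε * ⟪q, d⟫ ≤ ε * (|B| + 1) :=
                  mul_le_mul_of_nonneg_left ((hB q hq).trans ((le_abs_self B).trans (by linarith)))
                    hε0.le
              _ = ν * (ν - κ) / (ν + κ) := by
                  rw [hε]
                  field_simp)
        have h2 := vsub_mem_vectorSpan ℝ h1 hm_mem
        rw [vsub_eq_sub, add_sub_cancel_left] at h2
        have h3 := Submodule.smul_mem _ ε⁻¹ h2
        rwa [smul_smul, inv_mul_cancel₀ hε0.ne', one_smul] at h3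
    rw [hspan]
    have hli : LinearIndependent ℝ ![u, v] := by
      rw [LinearIndependent.pair_iff]
      intro a b hab
      have e1 : a * ν + b * κ = 0 := by
        have := congrArg (fun z => ⟪u, z⟫) hab
        simp only [inner_add_right, real_inner_smul_right, huu, huv, inner_zero_right] at this
        exact this
      have e2 : a * κ + b * ν = 0 := by
        have := congrArg (fun z => ⟪v, z⟫) hab
        simp only [inner_add_right, real_inner_smul_right, hvv, hvu, inner_zero_right] at this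
        exact this
      have hdet : ν ^ 2 - κ ^ 2 ≠ 0 := by
        have : 0 < (ν - κ) * (ν + κ) := mul_pos (by linarith) (by linarith)
        intro h
        nlinarith
      constructor
      · have : a * (ν ^ 2 - κ ^ 2) = 0 := by linear_combination ν * e1 - κ * e2
        exact (mul_eq_zero.1 this).resolve_right hdet
      · have : b * (ν ^ 2 - κ ^ 2) = 0 := by linear_combination ν * e2 - κ * e1
        exact (mul_eq_zero.1 this).resolve_right hdet
    have h2 : finrank ℝ (Submodule.span ℝ {u, v}) = 2 := by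
      have h5 := finrank_span_eq_card hli
      have h6 : Set.range ![u, v] = {u, v} := by
        ext z
        simp [eq_comm, or_comm]
      rw [h6] at h5
      simpa using h5
    have h3 := Submodule.finrank_add_finrank_orthogonal (Submodule.span ℝ {u, v})
    have h4 : finrank ℝ (E 4) = 4 := by simp
    omega

/-- Every facet is one of the facets `fac N p`. -/
lemma Code.facet_cases (hN : Code N ν κ) {F : Set (E 4)} (hF : IsFaceOfDim (circum N) 3 F) :
    ∃ p ∈ N, F = fac N p := by
  obtain ⟨⟨u, c, hle, rfl⟩, hne, hdim⟩ := hF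
  have hpos := hN.pos
  have hk := hN.klt
  have hk0 := hN.knn
  set F := {x ∈ circum N | ⟪u, x⟫ = c} with hFdef
  -- `0` is an interior point
  have hzero : ∀ d : E 4, ∃ ε : ℝ, 0 < ε ∧ ε • d ∈ circum N := by
    intro d
    obtain ⟨B, hB⟩ := (hN.fin.image fun q => ⟪q, d⟫).bddAbove
    have hB' : ∀ q ∈ N, ⟪q, d⟫ ≤ B := fun q hq => hB ⟨q, hq, rfl⟩
    refine ⟨ν / (|B| + 1), by positivity, ?_⟩
    rw [hN.mem_circum_iff]
    intro q hq
    rw [real_inner_smul_right]
    calc ν / (|B| + 1) * ⟪q, d⟫ ≤ ν / (|B| + 1) * (|B| + 1) :=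
          mul_le_mul_of_nonneg_left ((hB' q hq).trans ((le_abs_self B).trans (by linarith)))
            (by positivity)
      _ = ν := by field_simp
  have hzmem : (0 : E 4) ∈ circum N := by
    rw [hN.mem_circum_iff]
    intro q _
    rw [inner_zero_right]
    exact hpos.le
  have hu : u ≠ 0 := by
    rintro rfl
    obtain ⟨x0, hx0⟩ := hne
    have hc : c = 0 := by rw [← hx0.2, inner_zero_left]
    have htop : vectorSpan ℝ F = ⊤ := by
      rw [eq_top_iff]
      intro d _
      obtain ⟨ε, hε, hd⟩ := hzero d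
      have h1 : ε • d ∈ F := ⟨hd, by rw [inner_zero_left, hc]⟩
      have h2 : (0 : E 4) ∈ F := ⟨hzmem, by rw [inner_zero_left, hc]⟩
      have h3 := vsub_mem_vectorSpan ℝ h1 h2
      rw [vsub_eq_sub, sub_zero] at h3
      have h4 := Submodule.smul_mem _ ε⁻¹ h3
      rwa [smul_smul, inv_mul_cancel₀ hε.ne', one_smul] at h4
    rw [htop, finrank_top] at hdim
    simp at hdim
  -- some constraint is tight on all of `F`
  have hconv : Convex ℝ F := by
    intro x hx y hy a b ha hb hab
    refine ⟨?_, ?_⟩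
    · have hx1 := (hN.mem_circum_iff x).1 hx.1
      have hy1 := (hN.mem_circum_iff y).1 hy.1
      rw [hN.mem_circum_iff]
      intro q hq
      rw [inner_add_right, real_inner_smul_right, real_inner_smul_right]
      have := mul_le_mul_of_nonneg_left (hx1 q hq) ha
      have := mul_le_mul_of_nonneg_left (hy1 q hq) hb
      nlinarith
    · rw [inner_add_right, real_inner_smul_right, real_inner_smul_right, hx.2, hy.2, ← add_mul, hab,
        one_mul]
  have htight : ∃ p ∈ N, ∀ x ∈ F, ⟪p, x⟫ = ν := by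
    by_contra hcon
    push Not at hcon
    choose! g hgF hgne using hcon
    have hglt : ∀ p ∈ N, ⟪p, g p⟫ < ν := fun p hp =>
      lt_of_le_of_ne ((hN.mem_circum_iff _).1 (hgF p hp).1 p hp) (hgne p hp)
    classical
    set s := hN.fin.toFinset with hs
    have hsne : s.Nonempty := by
      rw [hs, Set.Finite.toFinset_nonempty]
      exact hN.ne
    have hcard : (0 : ℝ) < s.card := by exact_mod_cast hsne.card_pos
    set y : E 4 := ∑ p ∈ s, (s.card : ℝ)⁻¹ • g p with hy
    have hyF : y ∈ F := by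
      refine hconv.sum_mem (fun p _ => by positivity) ?_ (fun p hp => hgF p (by simpa [hs] using hp))
      rw [Finset.sum_const, nsmul_eq_mul, mul_inv_cancel₀ hcard.ne']
    have hylt : ∀ q ∈ N, ⟪q, y⟫ < ν := by
      intro q hq
      rw [hy, inner_sum]
      have hq' : q ∈ s := by simpa [hs] using hq
      calc ∑ p ∈ s, ⟪q, (s.card : ℝ)⁻¹ • g p⟫ < ∑ p ∈ s, (s.card : ℝ)⁻¹ * ν := by
            apply Finset.sum_lt_sum
            · intro p hp
              rw [real_inner_smul_right]
              exact mul_le_mul_of_nonneg_left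
                ((hN.mem_circum_iff _).1 (hgF p (by simpa [hs] using hp)).1 q hq) (by positivity)
            · refine ⟨q, hq', ?_⟩
              rw [real_inner_smul_right]
              exact mul_lt_mul_of_pos_left (hglt q hq) (by positivity)
        _ = ν := by
            rw [Finset.sum_const, nsmul_eq_mul]
            field_simp
    -- move from `y` in direction `u`
    obtain ⟨ε, hε, hmem⟩ : ∃ ε : ℝ, 0 < ε ∧ y + ε • u ∈ circum N := by
      have h1 : ∀ q ∈ N, ∃ ε : ℝ, 0 < ε ∧ ∀ t : ℝ, 0 ≤ t → t ≤ ε → ⟪q, y + t • u⟫ ≤ ν := by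
        intro q hq
        refine ⟨(ν - ⟪q, y⟫) / (|⟪q, u⟫| + 1), div_pos (by linarith [hylt q hq]) (by positivity),
          fun t ht0 ht => ?_⟩
        rw [inner_add_right, real_inner_smul_right]
        rw [le_div_iff₀ (by positivity)] at ht
        have := le_abs_self ⟪q, u⟫
        nlinarith [abs_nonneg ⟪q, u⟫]
      choose! e he1 he2 using h1
      refine ⟨s.inf' hsne e, ?_, ?_⟩
      · rw [Finset.lt_inf'_iff]
        intro q hq
        exact he1 q (by simpa [hs] using hq)
      · rw [hN.mem_circum_iff]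
        intro q hq
        have hq' : q ∈ s := by simpa [hs] using hq
        apply he2 q hq
        · rw [Finset.le_inf'_iff]
          intro p hp
          exact (he1 p (by simpa [hs] using hp)).le
        · exact Finset.inf'_le _ hq'
    have h1 := hle _ hmem
    rw [inner_add_right, real_inner_smul_right, hyF.2] at h1
    have h2 : 0 < ⟪u, u⟫ := real_inner_self_pos.2 hu
    nlinarith
  obtain ⟨p, hp, hpF⟩ := htight
  refine ⟨p, hp, ?_⟩
  -- the directions agree
  have hsub1 : vectorSpan ℝ F ≤ (ℝ ∙ u)ᗮ := by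
    rw [vectorSpan_def, Submodule.span_le]
    rintro _ ⟨x, hx, y, hy, rfl⟩
    change x - y ∈ (ℝ ∙ u)ᗮ
    rw [Submodule.mem_orthogonal_singleton_iff_inner_right, inner_sub_right, hx.2, hy.2, sub_self]
  have hsub2 : vectorSpan ℝ F ≤ (ℝ ∙ p)ᗮ := by
    rw [vectorSpan_def, Submodule.span_le]
    rintro _ ⟨x, hx, y, hy, rfl⟩
    change x - y ∈ (ℝ ∙ p)ᗮ
    rw [Submodule.mem_orthogonal_singleton_iff_inner_right, inner_sub_right, hpF x hx, hpF y hy,
      sub_self]
  have hd1 : finrank ℝ (ℝ ∙ u)ᗮ = 3 := Submodule.finrank_orthogonal_span_singleton hu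
  have hd2 : finrank ℝ (ℝ ∙ p)ᗮ = 3 := Submodule.finrank_orthogonal_span_singleton (hN.ne_zero hp)
  have heq1 := Submodule.eq_of_le_of_finrank_eq hsub1 (by rw [hdim, hd1])
  have heq2 := Submodule.eq_of_le_of_finrank_eq hsub2 (by rw [hdim, hd2])
  have hspan : (ℝ ∙ u) = (ℝ ∙ p) := by
    rw [← Submodule.orthogonal_orthogonal (ℝ ∙ u), ← Submodule.orthogonal_orthogonal (ℝ ∙ p),
      ← heq1, heq2]
  have hup : u ∈ (ℝ ∙ p) := by
    rw [← hspan]
    exact Submodule.mem_span_singleton_self u
  obtain ⟨l, hl⟩ := Submodule.mem_span_singleton.1 hup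
  have hl0 : l ≠ 0 := by
    rintro rfl
    rw [zero_smul] at hl
    exact hu hl.symm
  obtain ⟨x0, hx0⟩ := hne
  have hc : l * ν = c := by
    rw [← hx0.2, ← hl, real_inner_smul_left, hpF x0 hx0]
  have hlpos : 0 < l := by
    have h1 := hle 0 hzmem
    rw [inner_zero_right, ← hc] at h1
    rcases lt_or_gt_of_ne hl0 with h | h
    · nlinarith
    · exact h
  ext x
  rw [hN.mem_fac_iff hp, ← hN.mem_circum_iff]
  change (x ∈ circum N ∧ ⟪u, x⟫ = c) ↔ _
  rw [← hc, ← hl, real_inner_smul_left]
  refine and_congr_right fun _ => ⟨fun h => mul_left_cancel₀ hl0 h, fun h => by rw [h]⟩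

lemma Code.fac_injOn (hN : Code N ν κ) {p q : E 4} (hp : p ∈ N) (hq : q ∈ N)
    (h : fac N p = fac N q) : p = q := by
  by_contra hne
  have h1 : p ∈ fac N q := h ▸ hN.self_mem hp
  have h2 := ((hN.mem_fac_iff hq _).1 h1).2
  have h3 := hN.pair q hq p hp (Ne.symm hne)
  linarith [hN.klt]

end Pool.Agent.V11178.Net
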