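import Pool.Agent.V11178.Net.Dev

/-!
# Computable arithmetic in `ℚ(√5)` and codes given by coordinate patterns
-/

namespace Pool.Agent.V11178.Net

open RealInnerProductSpace

/-- The element `a + b √5` of `ℚ(√5)`. -/
structure Q5 where
  a : ℚ
  b : ℚ
deriving DecidableEq

namespace Q5

/-- the real value -/
noncomputable def val (x : Q5) : ℝ := (x.a : ℝ) + (x.b : ℝ) * √5

instance : Add Q5 := ⟨fun x y => ⟨x.a + y.a, x.b + y.b⟩⟩
instance : Sub Q5 := ⟨fun x y => ⟨x.a - y.a, x.b - y.b⟩⟩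
instance : Neg Q5 := ⟨fun x => ⟨-x.a, -x.b⟩⟩
instance : Mul Q5 := ⟨fun x y => ⟨x.a * y.a + 5 * (x.b * y.b), x.a * y.b + x.b * y.a⟩⟩

lemma val_add (x y : Q5) : (x + y).val = x.val + y.val := by
  change (((x.a + y.a : ℚ) : ℝ)) + ((x.b + y.b : ℚ) : ℝ) * √5 = _
  unfold val; push_cast; ring

lemma val_sub (x y : Q5) : (x - y).val = x.val - y.val := by
  change (((x.a - y.a : ℚ) : ℝ)) + ((x.b - y.b : ℚ) : ℝ) * √5 = _
  unfold val; push_cast; ring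

lemma val_neg (x : Q5) : (-x).val = -x.val := by
  change (((-x.a : ℚ) : ℝ)) + ((-x.b : ℚ) : ℝ) * √5 = _
  unfold val; push_cast; ring

lemma val_mul (x y : Q5) : (x * y).val = x.val * y.val := by
  change (((x.a * y.a + 5 * (x.b * y.b) : ℚ) : ℝ)) + ((x.a * y.b + x.b * y.a : ℚ) : ℝ) * √5 = _
  have h : √5 * √5 = (5 : ℝ) := Real.mul_self_sqrt (by norm_num)
  unfold val; push_cast
  linear_combination (-(x.b : ℝ) * y.b) * h

/-- a decidable sufficient test for `0 ≤ x.val` -/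
def Nonneg (x : Q5) : Prop :=
  (0 ≤ x.a ∧ 0 ≤ x.b) ∨ (0 ≤ x.a ∧ 5 * (x.b * x.b) ≤ x.a * x.a) ∨
    (0 ≤ x.b ∧ x.a * x.a ≤ 5 * (x.b * x.b))

instance (x : Q5) : Decidable x.Nonneg := by unfold Nonneg; infer_instance

/-- a decidable sufficient test for `0 < x.val` -/
def Pos (x : Q5) : Prop :=
  (0 < x.a ∧ 0 ≤ x.b) ∨ (0 < x.a ∧ 5 * (x.b * x.b) < x.a * x.a) ∨
    (0 < x.b ∧ x.a * x.a < 5 * (x.b * x.b))

instance (x : Q5) : Decidable x.Pos := by unfold Pos; infer_instance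

lemma Nonneg.val_nonneg {x : Q5} (h : x.Nonneg) : 0 ≤ x.val := by
  have h5 : √5 * √5 = (5 : ℝ) := Real.mul_self_sqrt (by norm_num)
  have h0 : (0 : ℝ) ≤ √5 := Real.sqrt_nonneg _
  unfold val
  rcases h with ⟨h1, h2⟩ | ⟨h1, h2⟩ | ⟨h1, h2⟩
  · have h1' : (0 : ℝ) ≤ x.a := by exact_mod_cast h1
    have h2' : (0 : ℝ) ≤ x.b := by exact_mod_cast h2
    positivity
  · have h1' : (0 : ℝ) ≤ x.a := by exact_mod_cast h1
    have h2' : (5 : ℝ) * (x.b * x.b) ≤ x.a * x.a := by exact_mod_cast h2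
    have h3 : |(x.b : ℝ) * √5| ≤ x.a := by
      apply abs_le_of_sq_le_sq _ h1'
      nlinarith
    have := neg_abs_le ((x.b : ℝ) * √5)
    linarith
  · have h1' : (0 : ℝ) ≤ x.b := by exact_mod_cast h1
    have h2' : (x.a : ℝ) * x.a ≤ 5 * (x.b * x.b) := by exact_mod_cast h2
    have h3 : |(x.a : ℝ)| ≤ x.b * √5 := by
      apply abs_le_of_sq_le_sq _ (by positivity)
      nlinarith
    have := neg_abs_le (x.a : ℝ)
    linarith

lemma Pos.val_pos {x : Q5} (h : x.Pos) : 0 < x.val := by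
  have h5 : √5 * √5 = (5 : ℝ) := Real.mul_self_sqrt (by norm_num)
  have h0 : (0 : ℝ) < √5 := Real.sqrt_pos.2 (by norm_num)
  unfold val
  rcases h with ⟨h1, h2⟩ | ⟨h1, h2⟩ | ⟨h1, h2⟩
  · have h1' : (0 : ℝ) < x.a := by exact_mod_cast h1
    have h2' : (0 : ℝ) ≤ x.b := by exact_mod_cast h2
    positivity
  · have h1' : (0 : ℝ) < x.a := by exact_mod_cast h1
    have h2' : (5 : ℝ) * (x.b * x.b) < x.a * x.a := by exact_mod_cast h2
    have h3 : |(x.b : ℝ) * √5| < x.a := by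
      apply abs_lt_of_sq_lt_sq _ h1'.le
      nlinarith
    have := neg_abs_le ((x.b : ℝ) * √5)
    linarith
  · have h1' : (0 : ℝ) < x.b := by exact_mod_cast h1
    have h2' : (x.a : ℝ) * x.a < 5 * (x.b * x.b) := by exact_mod_cast h2
    have h3 : |(x.a : ℝ)| < x.b * √5 := by
      apply abs_lt_of_sq_lt_sq _ (by positivity)
      nlinarith
    have := neg_abs_le (x.a : ℝ)
    linarith

end Q5

/-- dot product of computable vectors -/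
def dotQ (u v : Fin 4 → Q5) : Q5 := u 0 * v 0 + u 1 * v 1 + u 2 * v 2 + u 3 * v 3

/-- the real vector -/
noncomputable def toE (u : Fin 4 → Q5) : E 4 := WithLp.toLp 2 (fun i => (u i).val)

@[simp] lemma toE_apply (u : Fin 4 → Q5) (i : Fin 4) : toE u i = (u i).val := rfl

lemma inner_four (x y : E 4) : ⟪x, y⟫ = x 0 * y 0 + x 1 * y 1 + x 2 * y 2 + x 3 * y 3 := by
  rw [PiLp.inner_apply, Fin.sum_univ_four]
  simp only [RCLike.inner_apply, conj_trivial]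
  ring

lemma inner_toE (u v : Fin 4 → Q5) : ⟪toE u, toE v⟫ = (dotQ u v).val := by
  rw [inner_four]
  simp only [dotQ, Q5.val_add, Q5.val_mul, toE_apply]

/-- The even permutations of `Fin 4`. -/
def evenL : List (Fin 4 → Fin 4) :=
  [![0, 1, 2, 3], ![0, 2, 3, 1], ![0, 3, 1, 2], ![1, 0, 3, 2], ![1, 2, 0, 3], ![1, 3, 2, 0],
    ![2, 0, 1, 3], ![2, 1, 3, 0], ![2, 3, 0, 1], ![3, 0, 2, 1], ![3, 1, 0, 2], ![3, 2, 1, 0]]

lemma mem_evenL : ∀ σ : Equiv.Perm (Fin 4), Equiv.Perm.sign σ = 1 → (⇑σ) ∈ evenL := by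
  decide +kernel

lemma evenL_spec : ∀ f ∈ evenL, ∃ σ : Equiv.Perm (Fin 4), Equiv.Perm.sign σ = 1 ∧ ⇑σ = f := by
  decide +kernel

/-- The code with the coordinate patterns `C`. -/
def codeSet (C : List (Fin 4 → Q5)) : Set (E 4) :=
  {x | ∃ a ∈ C, x ∈ evenSignedPerms (fun i => (a i).val)}

/-- The (decidable) conditions on the patterns. -/
def Check (C : List (Fin 4 → Q5)) (ν κ : Q5) (a0 : Fin 4 → Q5) : Prop :=
  (∀ a ∈ C, dotQ a a = ν) ∧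
  (∀ a ∈ C, ∀ i, (a i).Nonneg) ∧
  (∀ a ∈ C, ∀ a' ∈ C, ∀ f ∈ evenL, (∀ i, a (f i) = a' i) ∨
    (κ - dotQ (fun i => a (f i)) a').Nonneg) ∧
  (∀ a ∈ C, ∀ i, a i = ⟨0, 0⟩ ∨ (⟨2, 0⟩ * (a i * a i) - (ν - κ)).Nonneg) ∧
  (ν.Pos ∧ κ.Nonneg ∧ (ν - κ).Pos) ∧
  (a0 ∈ C) ∧
  (∀ a ∈ C, ∀ f ∈ evenL, (∀ i, a (f i) = a0 i) ∨ ∃ a' ∈ C, ∃ g ∈ evenL,
    dotQ (fun i => a (f i)) (fun i => a' (g i)) = κ ∧
      (dotQ (fun i => a' (g i)) a0 - dotQ (fun i => a (f i)) a0).Pos) ∧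
  (∀ i, ∃ a ∈ C, ∃ f ∈ evenL, a (f i) = ⟨0, 0⟩)

instance (C : List (Fin 4 → Q5)) (ν κ : Q5) (a0 : Fin 4 → Q5) : Decidable (Check C ν κ a0) := by
  unfold Check; infer_instance

/-- The (decidable) conditions on the path `P` and the displacement vectors `S`. -/
def PathCheck (C : List (Fin 4 → Q5)) (ν κ i1 i2 : Q5) (k : ℕ) (d : Fin 4 → Q5)
    (P S : List (Fin 4 → Q5)) : Prop :=
  (0 < k) ∧
  ((ν + κ) * i1 = ⟨1, 0⟩ ∧ ν * i2 = ⟨1, 0⟩) ∧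
  (∀ v ∈ d :: P, ∃ a ∈ C, ∃ f ∈ evenL, ∀ c, v c = a (f c) ∨ v c = -(a (f c))) ∧
  (∀ i < k + 1, ∀ j < k + 1, i = j ∨ (ν - dotQ (P.getD i d) (P.getD j d)).Pos) ∧
  (∀ i < k, dotQ (P.getD i d) (P.getD (i + 1) d) = κ) ∧
  (∀ c, S.getD k d c = ⟨0, 0⟩) ∧
  (∀ i < k, ∀ c, S.getD i d c =
    (⟨2, 0⟩ * i1) * (ν * P.getD (i + 1) d c - κ * P.getD i d c) +
    ((S.getD (i + 1) d c - (dotQ (fun c => P.getD i d c + P.getD (i + 1) d c) (S.getD (i + 1) d) *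
      i1) * (P.getD i d c + P.getD (i + 1) d c)) +
      (⟨2, 0⟩ * dotQ (P.getD (i + 1) d) (S.getD (i + 1) d) * i2) * P.getD i d c)) ∧
  (⟨4, 0⟩ * (ν * (ν - κ)) - dotQ (S.getD 0 d) (S.getD 0 d) * (ν + κ)).Pos

instance (C : List (Fin 4 → Q5)) (ν κ i1 i2 : Q5) (k : ℕ) (d : Fin 4 → Q5)
    (P S : List (Fin 4 → Q5)) : Decidable (PathCheck C ν κ i1 i2 k d P S) := by
  unfold PathCheck; infer_instance

end Pool.Agent.V11178.Net
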